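import Pool.Agent.TSK.Q0_0
import Pool.Agent.TSK.Q0_1
import Pool.Agent.TSK.Q0_2
import Pool.Agent.TSK.Q0_3
import Pool.Agent.TSK.Q0_4
import Pool.Agent.TSK.Q1_0
import Pool.Agent.TSK.Q1_1
import Pool.Agent.TSK.Q1_2
import Pool.Agent.TSK.Q1_3
import Pool.Agent.TSK.Q1_4
import Pool.Agent.TSK.Q2_0
import Pool.Agent.TSK.Q2_1
import Pool.Agent.TSK.Q2_2
import Pool.Agent.TSK.Q2_3
import Pool.Agent.TSK.Q2_4
import Pool.Agent.TSK.Q3_0
import Pool.Agent.TSK.Q3_1
import Pool.Agent.TSK.Q3_2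
import Pool.Agent.TSK.Q3_3
import Pool.Agent.TSK.Q3_4
import Pool.Agent.TSK.Q4_0
import Pool.Agent.TSK.Q4_1
import Pool.Agent.TSK.Q4_2
import Pool.Agent.TSK.Q4_3
import Pool.Agent.TSK.Q4_4
import Pool.Agent.TSK.Q5_0
import Pool.Agent.TSK.Q5_1
import Pool.Agent.TSK.Q5_2
import Pool.Agent.TSK.Q5_3
import Pool.Agent.TSK.Q5_4
import Pool.Agent.TSK.Q6_0
import Pool.Agent.TSK.Q6_1
import Pool.Agent.TSK.Q6_2
import Pool.Agent.TSK.Q6_3
import Pool.Agent.TSK.Q6_4
import Pool.Agent.TSK.Q7_0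
import Pool.Agent.TSK.Q7_1
import Pool.Agent.TSK.Q7_2
import Pool.Agent.TSK.Q7_3
import Pool.Agent.TSK.Q7_4
import Pool.Agent.TSK.Q8_0
import Pool.Agent.TSK.Q8_1
import Pool.Agent.TSK.Q8_2
import Pool.Agent.TSK.Q8_3
import Pool.Agent.TSK.Q9_0
import Pool.Agent.TSK.Q9_1
import Pool.Agent.TSK.Q9_2
import Pool.Agent.TSK.Q9_3
import Pool.Agent.TSK.Q10_0
import Pool.Agent.TSK.Q10_1
import Pool.Agent.TSK.Q10_2
import Pool.Agent.TSK.Q10_3
import Pool.Agent.TSK.Q11_0
import Pool.Agent.TSK.Q11_1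
import Pool.Agent.TSK.Q11_2
import Pool.Agent.TSK.Q11_3
import Pool.Agent.TSK.Q12_0
import Pool.Agent.TSK.Q12_1
import Pool.Agent.TSK.Q12_2
import Pool.Agent.TSK.Q12_3
import Pool.Agent.TSK.Q13_0
import Pool.Agent.TSK.Q13_1
import Pool.Agent.TSK.Q13_2
import Pool.Agent.TSK.Q13_3
import Pool.Agent.TSK.Q14_0
import Pool.Agent.TSK.Q14_1
import Pool.Agent.TSK.Q14_2
import Pool.Agent.TSK.Q15_0
import Pool.Agent.TSK.Q15_1
import Pool.Agent.TSK.Q15_2
import Pool.Agent.TSK.Q16_0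
import Pool.Agent.TSK.Q16_1
import Pool.Agent.TSK.Q16_2
import Pool.Agent.TSK.Q17_0
import Pool.Agent.TSK.Q17_1
import Pool.Agent.TSK.Q17_2
import Pool.Agent.TSK.Q18_0
import Pool.Agent.TSK.Q18_1
import Pool.Agent.TSK.Q18_2
import Pool.Agent.TSK.Q19_0
import Pool.Agent.TSK.Q19_1
import Pool.Agent.TSK.Q19_2
import Pool.Agent.TSK.Q20_0
import Pool.Agent.TSK.Q20_1
import Pool.Agent.TSK.Q21_0
import Pool.Agent.TSK.Q21_1
import Pool.Agent.TSK.Q22_0
import Pool.Agent.TSK.Q22_1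
import Pool.Agent.TSK.Q23_0
import Pool.Agent.TSK.Q23_1

set_option autoImplicit false

/-! # Trees of maximum degree three (MP_d27362_co) -/

namespace Pool.Agent.TSK

open Pool.Agent.TSC
open Pool.Agent.TSG

/-- the intervals of `t` -/
def tl : List TC := [t0, t1, t2, t3, t4, t5, t6, t7, t8, t9, t10, t11, t12, t13, t14, t15, t16, t17, t18, t19, t20, t21, t22, t23]

theorem r0 : ∀ dc ∈ dl, KF t0 dc :=
  dl_forall c0_0 c0_1 c0_2 c0_3 c0_4 c0_5 c0_6 c0_7 c0_8 c0_9 c0_10 c0_11 c0_12 c0_13 c0_14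

theorem r1 : ∀ dc ∈ dl, KF t1 dc :=
  dl_forall c1_0 c1_1 c1_2 c1_3 c1_4 c1_5 c1_6 c1_7 c1_8 c1_9 c1_10 c1_11 c1_12 c1_13 c1_14

theorem r2 : ∀ dc ∈ dl, KF t2 dc :=
  dl_forall c2_0 c2_1 c2_2 c2_3 c2_4 c2_5 c2_6 c2_7 c2_8 c2_9 c2_10 c2_11 c2_12 c2_13 c2_14

theorem r3 : ∀ dc ∈ dl, KF t3 dc :=
  dl_forall c3_0 c3_1 c3_2 c3_3 c3_4 c3_5 c3_6 c3_7 c3_8 c3_9 c3_10 c3_11 c3_12 c3_13 c3_14

theorem r4 : ∀ dc ∈ dl, KF t4 dc :=
  dl_forall c4_0 c4_1 c4_2 c4_3 c4_4 c4_5 c4_6 c4_7 c4_8 c4_9 c4_10 c4_11 c4_12 c4_13 c4_14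

theorem r5 : ∀ dc ∈ dl, KF t5 dc :=
  dl_forall c5_0 c5_1 c5_2 c5_3 c5_4 c5_5 c5_6 c5_7 c5_8 c5_9 c5_10 c5_11 c5_12 c5_13 c5_14

theorem c6_14 : KF t6 d14 := KF.far (by decide +kernel)

theorem r6 : ∀ dc ∈ dl, KF t6 dc :=
  dl_forall c6_0 c6_1 c6_2 c6_3 c6_4 c6_5 c6_6 c6_7 c6_8 c6_9 c6_10 c6_11 c6_12 c6_13 c6_14

theorem c7_13 : KF t7 d13 := KF.far (by decide +kernel)

theorem c7_14 : KF t7 d14 := KF.far (by decide +kernel)

theorem r7 : ∀ dc ∈ dl, KF t7 dc :=
  dl_forall c7_0 c7_1 c7_2 c7_3 c7_4 c7_5 c7_6 c7_7 c7_8 c7_9 c7_10 c7_11 c7_12 c7_13 c7_14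

theorem c8_12 : KF t8 d12 := KF.far (by decide +kernel)

theorem c8_13 : KF t8 d13 := KF.far (by decide +kernel)

theorem c8_14 : KF t8 d14 := KF.far (by decide +kernel)

theorem r8 : ∀ dc ∈ dl, KF t8 dc :=
  dl_forall c8_0 c8_1 c8_2 c8_3 c8_4 c8_5 c8_6 c8_7 c8_8 c8_9 c8_10 c8_11 c8_12 c8_13 c8_14

theorem c9_11 : KF t9 d11 := KF.far (by decide +kernel)

theorem c9_12 : KF t9 d12 := KF.far (by decide +kernel)

theorem c9_13 : KF t9 d13 := KF.far (by decide +kernel)

theorem c9_14 : KF t9 d14 := KF.far (by decide +kernel)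

theorem r9 : ∀ dc ∈ dl, KF t9 dc :=
  dl_forall c9_0 c9_1 c9_2 c9_3 c9_4 c9_5 c9_6 c9_7 c9_8 c9_9 c9_10 c9_11 c9_12 c9_13 c9_14

theorem c10_11 : KF t10 d11 := KF.far (by decide +kernel)

theorem c10_12 : KF t10 d12 := KF.far (by decide +kernel)

theorem c10_13 : KF t10 d13 := KF.far (by decide +kernel)

theorem c10_14 : KF t10 d14 := KF.far (by decide +kernel)

theorem r10 : ∀ dc ∈ dl, KF t10 dc :=
  dl_forall c10_0 c10_1 c10_2 c10_3 c10_4 c10_5 c10_6 c10_7 c10_8 c10_9 c10_10 c10_11 c10_12 c10_13 c10_14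

theorem c11_10 : KF t11 d10 := KF.far (by decide +kernel)

theorem c11_11 : KF t11 d11 := KF.far (by decide +kernel)

theorem c11_12 : KF t11 d12 := KF.far (by decide +kernel)

theorem c11_13 : KF t11 d13 := KF.far (by decide +kernel)

theorem c11_14 : KF t11 d14 := KF.far (by decide +kernel)

theorem r11 : ∀ dc ∈ dl, KF t11 dc :=
  dl_forall c11_0 c11_1 c11_2 c11_3 c11_4 c11_5 c11_6 c11_7 c11_8 c11_9 c11_10 c11_11 c11_12 c11_13 c11_14

theorem c12_10 : KF t12 d10 := KF.far (by decide +kernel)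

theorem c12_11 : KF t12 d11 := KF.far (by decide +kernel)

theorem c12_12 : KF t12 d12 := KF.far (by decide +kernel)

theorem c12_13 : KF t12 d13 := KF.far (by decide +kernel)

theorem c12_14 : KF t12 d14 := KF.far (by decide +kernel)

theorem r12 : ∀ dc ∈ dl, KF t12 dc :=
  dl_forall c12_0 c12_1 c12_2 c12_3 c12_4 c12_5 c12_6 c12_7 c12_8 c12_9 c12_10 c12_11 c12_12 c12_13 c12_14

theorem c13_10 : KF t13 d10 := KF.far (by decide +kernel)

theorem c13_11 : KF t13 d11 := KF.far (by decide +kernel)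

theorem c13_12 : KF t13 d12 := KF.far (by decide +kernel)

theorem c13_13 : KF t13 d13 := KF.far (by decide +kernel)

theorem c13_14 : KF t13 d14 := KF.far (by decide +kernel)

theorem r13 : ∀ dc ∈ dl, KF t13 dc :=
  dl_forall c13_0 c13_1 c13_2 c13_3 c13_4 c13_5 c13_6 c13_7 c13_8 c13_9 c13_10 c13_11 c13_12 c13_13 c13_14

theorem c14_9 : KF t14 d9 := KF.far (by decide +kernel)

theorem c14_10 : KF t14 d10 := KF.far (by decide +kernel)

theorem c14_11 : KF t14 d11 := KF.far (by decide +kernel)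

theorem c14_12 : KF t14 d12 := KF.far (by decide +kernel)

theorem c14_13 : KF t14 d13 := KF.far (by decide +kernel)

theorem c14_14 : KF t14 d14 := KF.far (by decide +kernel)

theorem r14 : ∀ dc ∈ dl, KF t14 dc :=
  dl_forall c14_0 c14_1 c14_2 c14_3 c14_4 c14_5 c14_6 c14_7 c14_8 c14_9 c14_10 c14_11 c14_12 c14_13 c14_14

theorem c15_9 : KF t15 d9 := KF.far (by decide +kernel)

theorem c15_10 : KF t15 d10 := KF.far (by decide +kernel)

theorem c15_11 : KF t15 d11 := KF.far (by decide +kernel)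

theorem c15_12 : KF t15 d12 := KF.far (by decide +kernel)

theorem c15_13 : KF t15 d13 := KF.far (by decide +kernel)

theorem c15_14 : KF t15 d14 := KF.far (by decide +kernel)

theorem r15 : ∀ dc ∈ dl, KF t15 dc :=
  dl_forall c15_0 c15_1 c15_2 c15_3 c15_4 c15_5 c15_6 c15_7 c15_8 c15_9 c15_10 c15_11 c15_12 c15_13 c15_14

theorem c16_8 : KF t16 d8 := KF.far (by decide +kernel)

theorem c16_9 : KF t16 d9 := KF.far (by decide +kernel)

theorem c16_10 : KF t16 d10 := KF.far (by decide +kernel)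

theorem c16_11 : KF t16 d11 := KF.far (by decide +kernel)

theorem c16_12 : KF t16 d12 := KF.far (by decide +kernel)

theorem c16_13 : KF t16 d13 := KF.far (by decide +kernel)

theorem c16_14 : KF t16 d14 := KF.far (by decide +kernel)

theorem r16 : ∀ dc ∈ dl, KF t16 dc :=
  dl_forall c16_0 c16_1 c16_2 c16_3 c16_4 c16_5 c16_6 c16_7 c16_8 c16_9 c16_10 c16_11 c16_12 c16_13 c16_14

theorem c17_8 : KF t17 d8 := KF.far (by decide +kernel)

theorem c17_9 : KF t17 d9 := KF.far (by decide +kernel)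

theorem c17_10 : KF t17 d10 := KF.far (by decide +kernel)

theorem c17_11 : KF t17 d11 := KF.far (by decide +kernel)

theorem c17_12 : KF t17 d12 := KF.far (by decide +kernel)

theorem c17_13 : KF t17 d13 := KF.far (by decide +kernel)

theorem c17_14 : KF t17 d14 := KF.far (by decide +kernel)

theorem r17 : ∀ dc ∈ dl, KF t17 dc :=
  dl_forall c17_0 c17_1 c17_2 c17_3 c17_4 c17_5 c17_6 c17_7 c17_8 c17_9 c17_10 c17_11 c17_12 c17_13 c17_14

theorem c18_7 : KF t18 d7 := KF.far (by decide +kernel)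

theorem c18_8 : KF t18 d8 := KF.far (by decide +kernel)

theorem c18_9 : KF t18 d9 := KF.far (by decide +kernel)

theorem c18_10 : KF t18 d10 := KF.far (by decide +kernel)

theorem c18_11 : KF t18 d11 := KF.far (by decide +kernel)

theorem c18_12 : KF t18 d12 := KF.far (by decide +kernel)

theorem c18_13 : KF t18 d13 := KF.far (by decide +kernel)

theorem c18_14 : KF t18 d14 := KF.far (by decide +kernel)

theorem r18 : ∀ dc ∈ dl, KF t18 dc :=
  dl_forall c18_0 c18_1 c18_2 c18_3 c18_4 c18_5 c18_6 c18_7 c18_8 c18_9 c18_10 c18_11 c18_12 c18_13 c18_14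

theorem c19_7 : KF t19 d7 := KF.far (by decide +kernel)

theorem c19_8 : KF t19 d8 := KF.far (by decide +kernel)

theorem c19_9 : KF t19 d9 := KF.far (by decide +kernel)

theorem c19_10 : KF t19 d10 := KF.far (by decide +kernel)

theorem c19_11 : KF t19 d11 := KF.far (by decide +kernel)

theorem c19_12 : KF t19 d12 := KF.far (by decide +kernel)

theorem c19_13 : KF t19 d13 := KF.far (by decide +kernel)

theorem c19_14 : KF t19 d14 := KF.far (by decide +kernel)

theorem r19 : ∀ dc ∈ dl, KF t19 dc :=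
  dl_forall c19_0 c19_1 c19_2 c19_3 c19_4 c19_5 c19_6 c19_7 c19_8 c19_9 c19_10 c19_11 c19_12 c19_13 c19_14

theorem c20_6 : KF t20 d6 := KF.far (by decide +kernel)

theorem c20_7 : KF t20 d7 := KF.far (by decide +kernel)

theorem c20_8 : KF t20 d8 := KF.far (by decide +kernel)

theorem c20_9 : KF t20 d9 := KF.far (by decide +kernel)

theorem c20_10 : KF t20 d10 := KF.far (by decide +kernel)

theorem c20_11 : KF t20 d11 := KF.far (by decide +kernel)

theorem c20_12 : KF t20 d12 := KF.far (by decide +kernel)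

theorem c20_13 : KF t20 d13 := KF.far (by decide +kernel)

theorem c20_14 : KF t20 d14 := KF.far (by decide +kernel)

theorem r20 : ∀ dc ∈ dl, KF t20 dc :=
  dl_forall c20_0 c20_1 c20_2 c20_3 c20_4 c20_5 c20_6 c20_7 c20_8 c20_9 c20_10 c20_11 c20_12 c20_13 c20_14

theorem c21_6 : KF t21 d6 := KF.far (by decide +kernel)

theorem c21_7 : KF t21 d7 := KF.far (by decide +kernel)

theorem c21_8 : KF t21 d8 := KF.far (by decide +kernel)

theorem c21_9 : KF t21 d9 := KF.far (by decide +kernel)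

theorem c21_10 : KF t21 d10 := KF.far (by decide +kernel)

theorem c21_11 : KF t21 d11 := KF.far (by decide +kernel)

theorem c21_12 : KF t21 d12 := KF.far (by decide +kernel)

theorem c21_13 : KF t21 d13 := KF.far (by decide +kernel)

theorem c21_14 : KF t21 d14 := KF.far (by decide +kernel)

theorem r21 : ∀ dc ∈ dl, KF t21 dc :=
  dl_forall c21_0 c21_1 c21_2 c21_3 c21_4 c21_5 c21_6 c21_7 c21_8 c21_9 c21_10 c21_11 c21_12 c21_13 c21_14

theorem c22_5 : KF t22 d5 := KF.far (by decide +kernel)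

theorem c22_6 : KF t22 d6 := KF.far (by decide +kernel)

theorem c22_7 : KF t22 d7 := KF.far (by decide +kernel)

theorem c22_8 : KF t22 d8 := KF.far (by decide +kernel)

theorem c22_9 : KF t22 d9 := KF.far (by decide +kernel)

theorem c22_10 : KF t22 d10 := KF.far (by decide +kernel)

theorem c22_11 : KF t22 d11 := KF.far (by decide +kernel)

theorem c22_12 : KF t22 d12 := KF.far (by decide +kernel)

theorem c22_13 : KF t22 d13 := KF.far (by decide +kernel)

theorem c22_14 : KF t22 d14 := KF.far (by decide +kernel)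

theorem r22 : ∀ dc ∈ dl, KF t22 dc :=
  dl_forall c22_0 c22_1 c22_2 c22_3 c22_4 c22_5 c22_6 c22_7 c22_8 c22_9 c22_10 c22_11 c22_12 c22_13 c22_14

theorem c23_5 : KF t23 d5 := KF.far (by decide +kernel)

theorem c23_6 : KF t23 d6 := KF.far (by decide +kernel)

theorem c23_7 : KF t23 d7 := KF.far (by decide +kernel)

theorem c23_8 : KF t23 d8 := KF.far (by decide +kernel)

theorem c23_9 : KF t23 d9 := KF.far (by decide +kernel)

theorem c23_10 : KF t23 d10 := KF.far (by decide +kernel)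

theorem c23_11 : KF t23 d11 := KF.far (by decide +kernel)

theorem c23_12 : KF t23 d12 := KF.far (by decide +kernel)

theorem c23_13 : KF t23 d13 := KF.far (by decide +kernel)

theorem c23_14 : KF t23 d14 := KF.far (by decide +kernel)

theorem r23 : ∀ dc ∈ dl, KF t23 dc :=
  dl_forall c23_0 c23_1 c23_2 c23_3 c23_4 c23_5 c23_6 c23_7 c23_8 c23_9 c23_10 c23_11 c23_12 c23_13 c23_14

theorem covers_ok : covers tl dl = true := by decide +kernel

theorem allF : AllF tl dl := by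
  intro tc ht
  simp only [tl, List.mem_cons, List.not_mem_nil, or_false] at ht
  rcases ht with rfl | rfl | rfl | rfl | rfl | rfl | rfl | rfl | rfl | rfl | rfl | rfl | rfl | rfl | rfl | rfl | rfl | rfl | rfl | rfl | rfl | rfl | rfl | rfl
  · exact r0
  · exact r1
  · exact r2
  · exact r3
  · exact r4
  · exact r5
  · exact r6
  · exact r7
  · exact r8
  · exact r9
  · exact r10
  · exact r11
  · exact r12
  · exact r13
  · exact r14
  · exact r15
  · exact r16
  · exact r17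
  · exact r18
  · exact r19
  · exact r20
  · exact r21
  · exact r22
  · exact r23

theorem kOk : ∀ D, Pool.Agent.TSM.RD D → KOk (knAt dl d0 D) D := hk_of covers_ok kAll_ok d0

theorem lok_sgn : LOK tl dl sgnL := allF.lok (G := gSgn) (by simp [items])
theorem lok_root1 : LOK tl dl root1L := allF.lok (G := gR1) (by simp [items])
theorem lok_root0 : LOK tl dl root0L := allF.lok (G := gR0) (by simp [items])
theorem lok_pos : LOK3 tl dl posL := allF.lok3 (F := gPos) (by simp [fams])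
theorem lok_un : LOK3 tl dl unL := allF.lok3 (F := gUn) (by simp [fams])
theorem lok_lc : LOK3 tl dl lcL := allF.lok3 (F := gLc) (by simp [fams])
theorem lok_pc : LOK3 tl dl (fun E => pcL E true) := allF.lok3 (F := gPc) (by simp [fams])
theorem lok_zp : LOK3 tl dl zpL := allF.lok3 (F := gZp) (by simp [fams])
theorem lok_ms1 : LOK3 tl dl (fun E => msL E true) := allF.lok3 (F := gM1) (by simp [fams])
theorem lok_ms0 : LOK3 tl dl (fun E => msL E false) := allF.lok3 (F := gM2) (by simp [fams])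

/-- **every vertex has at most three neighbours or at most two neighbours which are not leaves** -/
theorem three_plus :
    ∀ n : ℕ, ∀ T : SimpleGraph (Fin n), T.IsTree →
      (∀ v, (T.neighborSet v).ncard ≤ 3 ∨
        {w ∈ T.neighborSet v | 2 ≤ (T.neighborSet w).ncard}.ncard ≤ 2) →
      ∃ D : Fin n → Fin n → Prop,
        (∀ u v, T.Adj u v → (D u v ∨ D v u)) ∧
        (∀ u v, D u v → (T.Adj u v ∧ ¬ D v u)) ∧
        ∀ m : ℕ, ∀ G : Fin m → Fin m → Prop,
          (∀ a, ¬ G a a) →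
          (∀ a b, a ≠ b → (G a b ↔ ¬ G b a)) →
          (({f : Fin n → Fin m | ∀ u v, D u v → G (f u) (f v)}.ncard : ℝ) / (m : ℝ) ^ n
            ≤ ((1 : ℝ) / 2) ^ (T.edgeSet.ncard)) :=
  three_plus_of covers_ok kOk lok_sgn lok_pos lok_root1 lok_root0 lok_un lok_lc lok_pc lok_zp
    lok_ms1 lok_ms0

end Pool.Agent.TSK
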