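import Pool.Agent.TSG.Lok3
import Pool.Agent.TSG.Glue3
import Pool.Agent.TSG.Const

set_option autoImplicit false

/-!
# The certificate of the basic lists (MP_d27362_co): one test per cell

Types 0, 1, 2 only (trees of maximum degree three).
-/

namespace Pool.Agent.TSK

open Pool.Agent.TSC
open Pool.Agent.TSG

/-- a family of lists natural in the coefficients -/
structure NF where
  /-- the lists -/
  L : (α : Type) → [Ar α] → En α → ℕ → List (QP α)
  /-- naturality -/
  nat : ∀ {α β : Type} [Ar α] [Ar β] {f : α → β}, ArHom f → ∀ (E : En α) (n : ℕ),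
    (L α E n).map (pmap f) = L β (E.map f) n

/-- one list of a family -/
def NF.at (F : NF) (k : ℕ) : NL := ⟨fun α _ E => F.L α E k, fun hf E => F.nat hf E k⟩

/-- the lists of the types 0, 1, 2 -/
def NF.three (F : NF) : List (ℕ × NL) := [(2, F.at 0), (1, F.at 1), (1, F.at 2)]

/-- signs -/
def gSgn : NL := ⟨fun _ _ E => sgnL E, fun hf E => map_sgnL hf E⟩
/-- nonnegativity -/
def gPos : NF := ⟨fun _ _ E n => posL E n, fun hf E n => map_posL hf E n⟩
/-- the stem -/
def gUn : NF := ⟨fun _ _ E n => unL E n, fun hf E n => map_unL hf E n⟩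
/-- leaf and child -/
def gLc : NF := ⟨fun _ _ E n => lcL E n, fun hf E n => map_lcL hf E n⟩
/-- path and child -/
def gPc : NF := ⟨fun _ _ E n => pcL E true n, fun hf E n => map_pcL hf E true n⟩
/-- leaf, path and child -/
def gZp : NF := ⟨fun _ _ E n => zpL E n, fun hf E n => map_zpL hf E n⟩
/-- two nontrivial children, first -/
def gM1 : NF := ⟨fun _ _ E n => msL E true n, fun hf E n => map_msL hf E true n⟩
/-- two nontrivial children, second -/
def gM2 : NF := ⟨fun _ _ E n => msL E false n, fun hf E n => map_msL hf E false n⟩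
/-- root -/
def gR1 : NL := ⟨fun _ _ E => root1L E, fun hf E => map_root1L hf E⟩
/-- root -/
def gR0 : NL := ⟨fun _ _ E => root0L E, fun hf E => map_root0L hf E⟩

/-- the families -/
def fams : List NF := [gPos, gUn, gLc, gPc, gZp, gM1, gM2]

/-- all lists with the bound of `v_y` -/
def items : List (ℕ × NL) := (2, gSgn) :: (2, gR1) :: (2, gR0) :: fams.flatMap NF.three

lemma items_W : ∀ p ∈ items, 1 ≤ p.1 ∧ p.1 ≤ 2 := by
  intro p hp
  simp only [items, fams, NF.three, List.flatMap_cons, List.flatMap_nil, List.mem_cons,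
    List.mem_append, List.not_mem_nil, or_false] at hp
  obtain rfl | rfl | rfl | h := hp
  · exact ⟨by norm_num, le_rfl⟩
  · exact ⟨by norm_num, le_rfl⟩
  · exact ⟨by norm_num, le_rfl⟩
  · rcases h with h | h | h | h | h | h | h <;>
      rcases h with rfl | rfl | rfl <;> simp

/-- the test of the lists `l` in one cell -/
def itemsOk (th : ℕ) (tc : TC) (dc : Seg (Kn Dec)) : List (ℕ × NL) → List (List ℕ) → Bool
  | [], _ => true
  | p :: l, K :: Ks => cellOk3 p.2 2 p.1 th tc dc K && itemsOk th tc dc l Ks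
  | _ :: _, [] => false

lemma itemsOk_sound {th : ℕ} {tc : TC} {dc : Seg (Kn Dec)} : ∀ {l : List (ℕ × NL)}
    {Ks : List (List ℕ)}, (∀ p ∈ l, 1 ≤ p.1 ∧ p.1 ≤ 2) → itemsOk th tc dc l Ks = true →
    ∀ p ∈ l, CellOK 2 p.1 tc dc (p.2.L ℝ)
  | [], _, _, _, p, hp => by simp at hp
  | q :: l, [], _, h, p, hp => by simp [itemsOk] at h
  | q :: l, K :: Ks, hW, h, p, hp => by
    simp only [itemsOk, Bool.and_eq_true] at h
    rcases List.mem_cons.1 hp with rfl | hp
    · have := hW p (by simp)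
      have h2 := cellOk3_sound (by norm_num) le_rfl this.1 this.2 h.1
      exact_mod_cast h2
    · exact itemsOk_sound (fun p hp => hW p (List.mem_cons_of_mem _ hp)) h.2 p hp

/-- all lists are fine in the cell -/
def KP (tc : TC) (dc : Seg (Kn Dec)) : Prop := ∀ p ∈ items, CellOK 2 p.1 tc dc (p.2.L ℝ)

/-- the cell is fine or far -/
def KF (tc : TC) (dc : Seg (Kn Dec)) : Prop := tc.a.val + dc.a.val ≤ 1 / 2 → KP tc dc

theorem KF.mk {th : ℕ} {tc : TC} {dc : Seg (Kn Dec)} {Ks : List (List ℕ)}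
    (h : itemsOk th tc dc items Ks = true) : KF tc dc :=
  fun _ => itemsOk_sound items_W h

theorem KF.far {tc : TC} {dc : Seg (Kn Dec)} (h : Pool.Agent.TSG.far tc dc = true) : KF tc dc :=
  fun hs => absurd hs (far_sound h)

/-- all cells are fine -/
def AllF (tl : List TC) (dl : List (Seg (Kn Dec))) : Prop := ∀ tc ∈ tl, ∀ dc ∈ dl, KF tc dc

variable {tl : List TC} {dl : List (Seg (Kn Dec))}

lemma AllF.lok (h : AllF tl dl) {G : NL} (hG : ((2 : ℕ), G) ∈ items) : LOK tl dl (G.L ℝ) :=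
  lok_of fun tc ht dc hd hs => by exact_mod_cast h tc ht dc hd hs _ hG

lemma AllF.lokw (h : AllF tl dl) {G : NL} (hG : ((1 : ℕ), G) ∈ items) : LOKw tl dl (G.L ℝ) :=
  lokw_of fun tc ht dc hd hs => by
    have h1 := h tc ht dc hd hs _ hG
    rwa [show (((1 : ℕ), G).1 : ℝ) = 1 by norm_num] at h1

lemma AllF.lok3 (h : AllF tl dl) {F : NF} (hF : F ∈ fams) : LOK3 tl dl (F.L ℝ) := by
  have key : ∀ x ∈ F.three, x ∈ items := fun x hx => by
    unfold items
    exact List.mem_cons_of_mem _ (List.mem_cons_of_mem _ (List.mem_cons_of_mem _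
      (List.mem_flatMap.2 ⟨F, hF, hx⟩)))
  exact ⟨h.lok (G := F.at 0) (key _ (by simp [NF.three])),
    h.lokw (G := F.at 1) (key _ (by simp [NF.three])),
    h.lokw (G := F.at 2) (key _ (by simp [NF.three]))⟩

/-- **trees of maximum degree at most three**, from the tests of the cells -/
theorem three_of_cells {d : Seg (Kn Dec)} (hc : covers tl dl = true)
    (hk : ∀ D, Pool.Agent.TSM.RD D → KOk (knAt dl d D) D) (h : AllF tl dl) :
    ∀ n : ℕ, ∀ T : SimpleGraph (Fin n), T.IsTree → (∀ v, (T.neighborSet v).ncard ≤ 3) →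
      ∃ D : Fin n → Fin n → Prop,
        (∀ u v, T.Adj u v → (D u v ∨ D v u)) ∧
        (∀ u v, D u v → (T.Adj u v ∧ ¬ D v u)) ∧
        ∀ m : ℕ, ∀ G : Fin m → Fin m → Prop,
          (∀ a, ¬ G a a) →
          (∀ a b, a ≠ b → (G a b ↔ ¬ G b a)) →
          (({f : Fin n → Fin m | ∀ u v, D u v → G (f u) (f v)}.ncard : ℝ) / (m : ℝ) ^ n
            ≤ ((1 : ℝ) / 2) ^ (T.edgeSet.ncard)) :=
  three_of hc hk (h.lok (G := gSgn) (by simp [items])) (h.lok3 (F := gPos) (by simp [fams]))
    (h.lok (G := gR1) (by simp [items])) (h.lok (G := gR0) (by simp [items]))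
    (h.lok3 (F := gUn) (by simp [fams])) (h.lok3 (F := gLc) (by simp [fams]))
    (h.lok3 (F := gPc) (by simp [fams])) (h.lok3 (F := gZp) (by simp [fams]))
    (h.lok3 (F := gM1) (by simp [fams])) (h.lok3 (F := gM2) (by simp [fams]))

end Pool.Agent.TSK
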