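import Pool.Agent.TSK.Base

set_option autoImplicit false

/-! # The constants of the certificate (MP_d27362_co) -/

namespace Pool.Agent.TSK

open Pool.Agent.TSC
open Pool.Agent.TSC.Dec
open Pool.Agent.TSG

/-- interval 0 -/
def d0 : Seg (Kn Dec) :=
  ⟨⟨0,0,0⟩, ⟨151,0,4⟩, ⟨0, ⟨45,0,2⟩, ⟨⟨878,0,3⟩,⟨583,0,4⟩,⟨97,0,2⟩,⟨1229,0,4⟩,⟨1866,0,4⟩,⟨1863,0,4⟩⟩,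
    ⟨⟨98,0,2⟩,⟨5806,0,4⟩,⟨1,0,0⟩,⟨579,0,4⟩⟩, ⟨⟨85,0,2⟩,⟨5247,0,4⟩,⟨2,0,0⟩,⟨579,0,4⟩⟩, ⟨⟨95,0,2⟩,⟨5583,0,4⟩,⟨17,0,1⟩,⟨579,0,4⟩⟩,
    ⟨⟨5806,0,4⟩,⟨2528,0,4⟩,⟨714,0,4⟩,⟨7096,0,4⟩,⟨10818,0,4⟩,⟨⟨0,0,0⟩,⟨0,0,0⟩,⟨0,0,0⟩,⟨0,0,0⟩,⟨0,0,0⟩,⟨0,0,0⟩,⟨0,0,0⟩⟩,⟨⟨0,0,0⟩,⟨0,0,0⟩,⟨0,0,0⟩,⟨0,0,0⟩,⟨0,0,0⟩,⟨0,0,0⟩,⟨0,0,0⟩⟩⟩, ⟨⟨1442,0,3⟩,⟨1442,0,3⟩,⟨1442,0,3⟩,⟨1442,0,3⟩,⟨1442,0,3⟩⟩, ⟨⟨0,0,0⟩,⟨1442,0,3⟩,⟨1442,0,3⟩,⟨1442,0,3⟩,⟨1442,0,3⟩⟩, ⟨⟨1442,0,3⟩,⟨1442,0,3⟩,⟨1442,0,3⟩,⟨1442,0,3⟩,⟨1442,0,3⟩⟩, ⟨1442,0,3⟩,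
    ⟨⟨1,0,0⟩,⟨9,0,1⟩,⟨24673,0,4⟩,⟨9,0,1⟩,⟨7096,0,4⟩,⟨10818,0,4⟩,⟨13,0,1⟩,⟨21334,0,4⟩,⟨61,0,4⟩,⟨1782,0,4⟩,⟨4439,0,4⟩,⟨105,0,4⟩,⟨3758,0,4⟩,⟨4395,0,4⟩,⟨14,0,1⟩,⟨23,0,1⟩,⟨10,0,0⟩,⟨68,0,4⟩,⟨1782,0,4⟩,⟨4432,0,4⟩,⟨116,0,4⟩,⟨3758,0,4⟩,⟨4384,0,4⟩⟩, ⟨⟨1442,0,3⟩,⟨0,0,0⟩,⟨0,0,0⟩,⟨0,0,0⟩,⟨0,0,0⟩⟩⟩⟩

/-- interval 1 -/
def d1 : Seg (Kn Dec) :=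
  ⟨⟨151,0,4⟩, ⟨15,0,3⟩, ⟨1, ⟨45,0,2⟩, ⟨⟨829,0,3⟩,⟨78,0,3⟩,⟨94,0,2⟩,⟨1735,0,4⟩,⟨1594,0,4⟩,⟨1876,0,4⟩⟩,
    ⟨⟨98,0,2⟩,⟨6405,0,4⟩,⟨1,0,0⟩,⟨579,0,4⟩⟩, ⟨⟨85,0,2⟩,⟨5482,0,4⟩,⟨2,0,0⟩,⟨579,0,4⟩⟩, ⟨⟨95,0,2⟩,⟨6068,0,4⟩,⟨17,0,1⟩,⟨579,0,4⟩⟩,
    ⟨⟨6405,0,4⟩,⟨2555,0,4⟩,⟨1112,0,4⟩,⟨7193,0,4⟩,⟨10818,0,4⟩,⟨⟨0,0,0⟩,⟨0,0,0⟩,⟨0,0,0⟩,⟨0,0,0⟩,⟨0,0,0⟩,⟨0,0,0⟩,⟨0,0,0⟩⟩,⟨⟨0,0,0⟩,⟨0,0,0⟩,⟨0,0,0⟩,⟨0,0,0⟩,⟨0,0,0⟩,⟨0,0,0⟩,⟨0,0,0⟩⟩⟩, ⟨⟨1682,0,3⟩,⟨1682,0,3⟩,⟨1682,0,3⟩,⟨1682,0,3⟩,⟨1682,0,3⟩⟩, ⟨⟨0,0,0⟩,⟨1682,0,3⟩,⟨1682,0,3⟩,⟨1682,0,3⟩,⟨1682,0,3⟩⟩, ⟨⟨1682,0,3⟩,⟨1682,0,3⟩,⟨1682,0,3⟩,⟨1682,0,3⟩,⟨1682,0,3⟩⟩, ⟨1682,0,3⟩,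
    ⟨⟨1,0,0⟩,⟨9,0,1⟩,⟨24673,0,4⟩,⟨9,0,1⟩,⟨7193,0,4⟩,⟨10818,0,4⟩,⟨13,0,1⟩,⟨21334,0,4⟩,⟨121,0,4⟩,⟨1804,0,4⟩,⟨4379,0,4⟩,⟨209,0,4⟩,⟨382,0,3⟩,⟨4291,0,4⟩,⟨14,0,1⟩,⟨23,0,1⟩,⟨10,0,0⟩,⟨136,0,4⟩,⟨1804,0,4⟩,⟨4364,0,4⟩,⟨23,0,3⟩,⟨382,0,3⟩,⟨427,0,3⟩⟩, ⟨⟨1682,0,3⟩,⟨0,0,0⟩,⟨0,0,0⟩,⟨0,0,0⟩,⟨0,0,0⟩⟩⟩⟩

/-- interval 2 -/
def d2 : Seg (Kn Dec) :=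
  ⟨⟨301,0,4⟩, ⟨2,0,2⟩, ⟨2, ⟨45,0,2⟩, ⟨⟨7815,0,4⟩,⟨936,0,4⟩,⟨9,0,1⟩,⟨2239,0,4⟩,⟨14,0,2⟩,⟨1895,0,4⟩⟩,
    ⟨⟨98,0,2⟩,⟨7012,0,4⟩,⟨1,0,0⟩,⟨579,0,4⟩⟩, ⟨⟨85,0,2⟩,⟨5783,0,4⟩,⟨2,0,0⟩,⟨579,0,4⟩⟩, ⟨⟨95,0,2⟩,⟨6611,0,4⟩,⟨17,0,1⟩,⟨579,0,4⟩⟩,
    ⟨⟨7012,0,4⟩,⟨2588,0,4⟩,⟨157,0,3⟩,⟨7324,0,4⟩,⟨10818,0,4⟩,⟨⟨0,0,0⟩,⟨0,0,0⟩,⟨0,0,0⟩,⟨0,0,0⟩,⟨0,0,0⟩,⟨0,0,0⟩,⟨0,0,0⟩⟩,⟨⟨0,0,0⟩,⟨0,0,0⟩,⟨0,0,0⟩,⟨0,0,0⟩,⟨0,0,0⟩,⟨0,0,0⟩,⟨0,0,0⟩⟩⟩, ⟨⟨1999,0,3⟩,⟨1999,0,3⟩,⟨1999,0,3⟩,⟨1999,0,3⟩,⟨1999,0,3⟩⟩, ⟨⟨0,0,0⟩,⟨1999,0,3⟩,⟨1999,0,3⟩,⟨1999,0,3⟩,⟨1999,0,3⟩⟩, ⟨⟨1999,0,3⟩,⟨1999,0,3⟩,⟨1999,0,3⟩,⟨1999,0,3⟩,⟨1999,0,3⟩⟩, ⟨1999,0,3⟩,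
    ⟨⟨1,0,0⟩,⟨9,0,1⟩,⟨24673,0,4⟩,⟨9,0,1⟩,⟨7324,0,4⟩,⟨10818,0,4⟩,⟨13,0,1⟩,⟨21334,0,4⟩,⟨2,0,2⟩,⟨1834,0,4⟩,⟨43,0,2⟩,⟨345,0,4⟩,⟨391,0,3⟩,⟨4155,0,4⟩,⟨14,0,1⟩,⟨23,0,1⟩,⟨10,0,0⟩,⟨224,0,4⟩,⟨1834,0,4⟩,⟨4276,0,4⟩,⟨38,0,3⟩,⟨3908,0,4⟩,⟨412,0,3⟩⟩, ⟨⟨1999,0,3⟩,⟨0,0,0⟩,⟨0,0,0⟩,⟨0,0,0⟩,⟨0,0,0⟩⟩⟩⟩

/-- interval 3 -/
def d3 : Seg (Kn Dec) :=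
  ⟨⟨501,0,4⟩, ⟨25,0,3⟩, ⟨3, ⟨5,0,1⟩, ⟨⟨7357,0,4⟩,⟨1045,0,4⟩,⟨85,0,2⟩,⟨2879,0,4⟩,⟨1212,0,4⟩,⟨1905,0,4⟩⟩,
    ⟨⟨98,0,2⟩,⟨7579,0,4⟩,⟨1,0,0⟩,⟨699,0,4⟩⟩, ⟨⟨85,0,2⟩,⟨6143,0,4⟩,⟨2,0,0⟩,⟨699,0,4⟩⟩, ⟨⟨925,0,3⟩,⟨6671,0,4⟩,⟨17,0,1⟩,⟨699,0,4⟩⟩,
    ⟨⟨7579,0,4⟩,⟨2627,0,4⟩,⟨2077,0,4⟩,⟨7491,0,4⟩,⟨10818,0,4⟩,⟨⟨0,0,0⟩,⟨0,0,0⟩,⟨0,0,0⟩,⟨0,0,0⟩,⟨0,0,0⟩,⟨0,0,0⟩,⟨0,0,0⟩⟩,⟨⟨0,0,0⟩,⟨0,0,0⟩,⟨0,0,0⟩,⟨0,0,0⟩,⟨0,0,0⟩,⟨0,0,0⟩,⟨0,0,0⟩⟩⟩, ⟨⟨1699,0,3⟩,⟨1699,0,3⟩,⟨1699,0,3⟩,⟨1699,0,3⟩,⟨1699,0,3⟩⟩, ⟨⟨0,0,0⟩,⟨1699,0,3⟩,⟨1699,0,3⟩,⟨1699,0,3⟩,⟨1699,0,3⟩⟩, ⟨⟨1699,0,3⟩,⟨1699,0,3⟩,⟨1699,0,3⟩,⟨1699,0,3⟩,⟨1699,0,3⟩⟩, ⟨1699,0,3⟩,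
    ⟨⟨1,0,0⟩,⟨9,0,1⟩,⟨24673,0,4⟩,⟨9,0,1⟩,⟨7491,0,4⟩,⟨10818,0,4⟩,⟨135,0,2⟩,⟨20643,0,4⟩,⟨315,0,4⟩,⟨1738,0,4⟩,⟨4685,0,4⟩,⟨563,0,4⟩,⟨4,0,1⟩,⟨4437,0,4⟩,⟨14,0,1⟩,⟨23,0,1⟩,⟨10,0,0⟩,⟨332,0,4⟩,⟨1738,0,4⟩,⟨4668,0,4⟩,⟨589,0,4⟩,⟨3998,0,4⟩,⟨4411,0,4⟩⟩, ⟨⟨1699,0,3⟩,⟨0,0,0⟩,⟨0,0,0⟩,⟨0,0,0⟩,⟨0,0,0⟩⟩⟩⟩

/-- interval 4 -/
def d4 : Seg (Kn Dec) :=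
  ⟨⟨751,0,4⟩, ⟨25,0,3⟩, ⟨4, ⟨55,0,2⟩, ⟨⟨6983,0,4⟩,⟨1097,0,4⟩,⟨8,0,1⟩,⟨3481,0,4⟩,⟨1079,0,4⟩,⟨1918,0,4⟩⟩,
    ⟨⟨98,0,2⟩,⟨8018,0,4⟩,⟨1,0,0⟩,⟨826,0,4⟩⟩, ⟨⟨85,0,2⟩,⟨6489,0,4⟩,⟨2,0,0⟩,⟨826,0,4⟩⟩, ⟨⟨9,0,1⟩,⟨6732,0,4⟩,⟨17,0,1⟩,⟨826,0,4⟩⟩,
    ⟨⟨8018,0,4⟩,⟨2661,0,4⟩,⟨2537,0,4⟩,⟨7663,0,4⟩,⟨10818,0,4⟩,⟨⟨0,0,0⟩,⟨0,0,0⟩,⟨0,0,0⟩,⟨0,0,0⟩,⟨0,0,0⟩,⟨0,0,0⟩,⟨0,0,0⟩⟩,⟨⟨0,0,0⟩,⟨0,0,0⟩,⟨0,0,0⟩,⟨0,0,0⟩,⟨0,0,0⟩,⟨0,0,0⟩,⟨0,0,0⟩⟩⟩, ⟨⟨1401,0,3⟩,⟨1401,0,3⟩,⟨1401,0,3⟩,⟨1401,0,3⟩,⟨1401,0,3⟩⟩, ⟨⟨0,0,0⟩,⟨1401,0,3⟩,⟨1401,0,3⟩,⟨1401,0,3⟩,⟨1401,0,3⟩⟩, ⟨⟨1401,0,3⟩,⟨1401,0,3⟩,⟨1401,0,3⟩,⟨1401,0,3⟩,⟨1401,0,3⟩⟩, ⟨1401,0,3⟩,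
    ⟨⟨1,0,0⟩,⟨9,0,1⟩,⟨24673,0,4⟩,⟨9,0,1⟩,⟨7663,0,4⟩,⟨10818,0,4⟩,⟨14,0,1⟩,⟨2025,0,3⟩,⟨44,0,3⟩,⟨1658,0,4⟩,⟨506,0,3⟩,⟨814,0,4⟩,⟨4108,0,4⟩,⟨4681,0,4⟩,⟨14,0,1⟩,⟨23,0,1⟩,⟨10,0,0⟩,⟨44,0,3⟩,⟨1658,0,4⟩,⟨506,0,3⟩,⟨814,0,4⟩,⟨4108,0,4⟩,⟨4686,0,4⟩⟩, ⟨⟨1401,0,3⟩,⟨0,0,0⟩,⟨0,0,0⟩,⟨0,0,0⟩,⟨0,0,0⟩⟩⟩⟩

/-- interval 5 -/
def d5 : Seg (Kn Dec) :=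
  ⟨⟨1001,0,4⟩, ⟨15,0,3⟩, ⟨5, ⟨575,0,3⟩, ⟨⟨6787,0,4⟩,⟨1153,0,4⟩,⟨8,0,1⟩,⟨3835,0,4⟩,⟨1013,0,4⟩,⟨1927,0,4⟩⟩,
    ⟨⟨98,0,2⟩,⟨824,0,3⟩,⟨1,0,0⟩,⟨893,0,4⟩⟩, ⟨⟨85,0,2⟩,⟨6738,0,4⟩,⟨206,0,2⟩,⟨893,0,4⟩⟩, ⟨⟨915,0,3⟩,⟨7163,0,4⟩,⟨17,0,1⟩,⟨893,0,4⟩⟩,
    ⟨⟨824,0,3⟩,⟨2688,0,4⟩,⟨2796,0,4⟩,⟨7768,0,4⟩,⟨10818,0,4⟩,⟨⟨0,0,0⟩,⟨0,0,0⟩,⟨0,0,0⟩,⟨0,0,0⟩,⟨0,0,0⟩,⟨0,0,0⟩,⟨0,0,0⟩⟩,⟨⟨0,0,0⟩,⟨0,0,0⟩,⟨0,0,0⟩,⟨0,0,0⟩,⟨0,0,0⟩,⟨0,0,0⟩,⟨0,0,0⟩⟩⟩, ⟨⟨1581,0,3⟩,⟨1581,0,3⟩,⟨1581,0,3⟩,⟨1581,0,3⟩,⟨1581,0,3⟩⟩, ⟨⟨0,0,0⟩,⟨1581,0,3⟩,⟨1581,0,3⟩,⟨1581,0,3⟩,⟨1581,0,3⟩⟩, ⟨⟨1581,0,3⟩,⟨1581,0,3⟩,⟨1581,0,3⟩,⟨1581,0,3⟩,⟨1581,0,3⟩⟩, ⟨1581,0,3⟩,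
    ⟨⟨1,0,0⟩,⟨9,0,1⟩,⟨24673,0,4⟩,⟨9,0,1⟩,⟨7768,0,4⟩,⟨10818,0,4⟩,⟨14,0,1⟩,⟨2025,0,3⟩,⟨536,0,4⟩,⟨1634,0,4⟩,⟨561,0,3⟩,⟨824,0,4⟩,⟨4132,0,4⟩,⟨4182,0,4⟩,⟨14,0,1⟩,⟨23,0,1⟩,⟨10,0,0⟩,⟨504,0,4⟩,⟨1624,0,4⟩,⟨5246,0,4⟩,⟨953,0,4⟩,⟨419,0,3⟩,⟨4797,0,4⟩⟩, ⟨⟨1581,0,3⟩,⟨0,0,0⟩,⟨0,0,0⟩,⟨0,0,0⟩,⟨0,0,0⟩⟩⟩⟩

/-- interval 6 -/
def d6 : Seg (Kn Dec) :=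
  ⟨⟨1151,0,4⟩, ⟨15,0,3⟩, ⟨6, ⟨599,0,3⟩, ⟨⟨6607,0,4⟩,⟨1201,0,4⟩,⟨8,0,1⟩,⟨4185,0,4⟩,⟨956,0,4⟩,⟨1938,0,4⟩⟩,
    ⟨⟨98,0,2⟩,⟨8439,0,4⟩,⟨1,0,0⟩,⟨96,0,3⟩⟩, ⟨⟨85,0,2⟩,⟨6995,0,4⟩,⟨212,0,2⟩,⟨96,0,3⟩⟩, ⟨⟨93,0,2⟩,⟨7665,0,4⟩,⟨17,0,1⟩,⟨96,0,3⟩⟩,
    ⟨⟨8439,0,4⟩,⟨2714,0,4⟩,⟨3044,0,4⟩,⟨7874,0,4⟩,⟨10818,0,4⟩,⟨⟨0,0,0⟩,⟨0,0,0⟩,⟨0,0,0⟩,⟨0,0,0⟩,⟨0,0,0⟩,⟨0,0,0⟩,⟨0,0,0⟩⟩,⟨⟨0,0,0⟩,⟨0,0,0⟩,⟨0,0,0⟩,⟨0,0,0⟩,⟨0,0,0⟩,⟨0,0,0⟩,⟨0,0,0⟩⟩⟩, ⟨⟨1761,0,3⟩,⟨1761,0,3⟩,⟨1761,0,3⟩,⟨1761,0,3⟩,⟨1761,0,3⟩⟩, ⟨⟨0,0,0⟩,⟨1761,0,3⟩,⟨1761,0,3⟩,⟨1761,0,3⟩,⟨1761,0,3⟩⟩, ⟨⟨1761,0,3⟩,⟨1761,0,3⟩,⟨1761,0,3⟩,⟨1761,0,3⟩,⟨1761,0,3⟩⟩, ⟨1761,0,3⟩,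
    ⟨⟨1,0,0⟩,⟨9,0,1⟩,⟨24673,0,4⟩,⟨9,0,1⟩,⟨7874,0,4⟩,⟨10818,0,4⟩,⟨14,0,1⟩,⟨2025,0,3⟩,⟨636,0,4⟩,⟨1622,0,4⟩,⟨6157,0,4⟩,⟨798,0,4⟩,⟨4144,0,4⟩,⟨3629,0,4⟩,⟨14,0,1⟩,⟨23,0,1⟩,⟨10,0,0⟩,⟨566,0,4⟩,⟨1598,0,4⟩,⟨5424,0,4⟩,⟨1092,0,4⟩,⟨428,0,3⟩,⟨4898,0,4⟩⟩, ⟨⟨1761,0,3⟩,⟨0,0,0⟩,⟨0,0,0⟩,⟨0,0,0⟩,⟨0,0,0⟩⟩⟩⟩

/-- interval 7 -/
def d7 : Seg (Kn Dec) :=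
  ⟨⟨1301,0,4⟩, ⟨2,0,2⟩, ⟨7, ⟨6325,0,4⟩, ⟨⟨6387,0,4⟩,⟨1257,0,4⟩,⟨8,0,1⟩,⟨465,0,3⟩,⟨89,0,3⟩,⟨1953,0,4⟩⟩,
    ⟨⟨98,0,2⟩,⟨8679,0,4⟩,⟨1,0,0⟩,⟨1055,0,4⟩⟩, ⟨⟨85,0,2⟩,⟨7352,0,4⟩,⟨22,0,1⟩,⟨1055,0,4⟩⟩, ⟨⟨95,0,2⟩,⟨8466,0,4⟩,⟨17,0,1⟩,⟨1055,0,4⟩⟩,
    ⟨⟨8679,0,4⟩,⟨2751,0,4⟩,⟨3363,0,4⟩,⟨8018,0,4⟩,⟨10818,0,4⟩,⟨⟨0,0,0⟩,⟨0,0,0⟩,⟨0,0,0⟩,⟨0,0,0⟩,⟨0,0,0⟩,⟨0,0,0⟩,⟨0,0,0⟩⟩,⟨⟨0,0,0⟩,⟨0,0,0⟩,⟨0,0,0⟩,⟨0,0,0⟩,⟨0,0,0⟩,⟨0,0,0⟩,⟨0,0,0⟩⟩⟩, ⟨⟨2,0,0⟩,⟨2,0,0⟩,⟨2,0,0⟩,⟨2,0,0⟩,⟨2,0,0⟩⟩, ⟨⟨0,0,0⟩,⟨2,0,0⟩,⟨2,0,0⟩,⟨2,0,0⟩,⟨2,0,0⟩⟩, ⟨⟨2,0,0⟩,⟨2,0,0⟩,⟨2,0,0⟩,⟨2,0,0⟩,⟨2,0,0⟩⟩, ⟨2,0,0⟩,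
    ⟨⟨1,0,0⟩,⟨9,0,1⟩,⟨24673,0,4⟩,⟨9,0,1⟩,⟨8018,0,4⟩,⟨10818,0,4⟩,⟨14,0,1⟩,⟨2025,0,3⟩,⟨775,0,4⟩,⟨1604,0,4⟩,⟨6931,0,4⟩,⟨7,0,2⟩,⟨4132,0,4⟩,⟨2812,0,4⟩,⟨14,0,1⟩,⟨23,0,1⟩,⟨10,0,0⟩,⟨65,0,3⟩,⟨1562,0,4⟩,⟨5675,0,4⟩,⟨1288,0,4⟩,⟨4408,0,4⟩,⟨5037,0,4⟩⟩, ⟨⟨2,0,0⟩,⟨0,0,0⟩,⟨0,0,0⟩,⟨0,0,0⟩,⟨0,0,0⟩⟩⟩⟩

/-- interval 8 -/
def d8 : Seg (Kn Dec) :=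
  ⟨⟨1501,0,4⟩, ⟨25,0,3⟩, ⟨8, ⟨7196,0,4⟩, ⟨⟨6139,0,4⟩,⟨1396,0,4⟩,⟨85,0,2⟩,⟨5022,0,4⟩,⟨845,0,4⟩,⟨1973,0,4⟩⟩,
    ⟨⟨98,0,2⟩,⟨8945,0,4⟩,⟨1,0,0⟩,⟨1319,0,4⟩⟩, ⟨⟨863,0,3⟩,⟨7804,0,4⟩,⟨215,0,2⟩,⟨1319,0,4⟩⟩, ⟨⟨925,0,3⟩,⟨8342,0,4⟩,⟨18,0,1⟩,⟨1319,0,4⟩⟩,
    ⟨⟨8945,0,4⟩,⟨2819,0,4⟩,⟨3744,0,4⟩,⟨8201,0,4⟩,⟨10818,0,4⟩,⟨⟨0,0,0⟩,⟨0,0,0⟩,⟨0,0,0⟩,⟨0,0,0⟩,⟨0,0,0⟩,⟨0,0,0⟩,⟨0,0,0⟩⟩,⟨⟨0,0,0⟩,⟨0,0,0⟩,⟨0,0,0⟩,⟨0,0,0⟩,⟨0,0,0⟩,⟨0,0,0⟩,⟨0,0,0⟩⟩⟩, ⟨⟨2,0,0⟩,⟨2,0,0⟩,⟨2,0,0⟩,⟨2,0,0⟩,⟨2,0,0⟩⟩, ⟨⟨0,0,0⟩,⟨2,0,0⟩,⟨2,0,0⟩,⟨2,0,0⟩,⟨2,0,0⟩⟩, ⟨⟨2,0,0⟩,⟨2,0,0⟩,⟨2,0,0⟩,⟨2,0,0⟩,⟨2,0,0⟩⟩, ⟨2,0,0⟩,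
    ⟨⟨1,0,0⟩,⟨9,0,1⟩,⟨24673,0,4⟩,⟨9,0,1⟩,⟨8201,0,4⟩,⟨10818,0,4⟩,⟨145,0,2⟩,⟨20056,0,4⟩,⟨864,0,4⟩,⟨147,0,3⟩,⟨7117,0,4⟩,⟨912,0,4⟩,⟨422,0,3⟩,⟨3142,0,4⟩,⟨14,0,1⟩,⟨23,0,1⟩,⟨10,0,0⟩,⟨754,0,4⟩,⟨1444,0,4⟩,⟨6442,0,4⟩,⟨1593,0,4⟩,⟨4566,0,4⟩,⟨5603,0,4⟩⟩, ⟨⟨2,0,0⟩,⟨0,0,0⟩,⟨0,0,0⟩,⟨0,0,0⟩,⟨0,0,0⟩⟩⟩⟩

/-- interval 9 -/
def d9 : Seg (Kn Dec) :=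
  ⟨⟨1751,0,4⟩, ⟨25,0,3⟩, ⟨9, ⟨8094,0,4⟩, ⟨⟨5916,0,4⟩,⟨1531,0,4⟩,⟨9,0,1⟩,⟨5369,0,4⟩,⟨807,0,4⟩,⟨2002,0,4⟩⟩,
    ⟨⟨98,0,2⟩,⟨9185,0,4⟩,⟨1,0,0⟩,⟨1613,0,4⟩⟩, ⟨⟨875,0,3⟩,⟨8262,0,4⟩,⟨21,0,1⟩,⟨1613,0,4⟩⟩, ⟨⟨9,0,1⟩,⟨8363,0,4⟩,⟨19,0,1⟩,⟨1613,0,4⟩⟩,
    ⟨⟨9185,0,4⟩,⟨2898,0,4⟩,⟨4107,0,4⟩,⟨8389,0,4⟩,⟨10818,0,4⟩,⟨⟨0,0,0⟩,⟨0,0,0⟩,⟨0,0,0⟩,⟨0,0,0⟩,⟨0,0,0⟩,⟨0,0,0⟩,⟨0,0,0⟩⟩,⟨⟨0,0,0⟩,⟨0,0,0⟩,⟨0,0,0⟩,⟨0,0,0⟩,⟨0,0,0⟩,⟨0,0,0⟩,⟨0,0,0⟩⟩⟩, ⟨⟨2,0,0⟩,⟨2,0,0⟩,⟨2,0,0⟩,⟨2,0,0⟩,⟨2,0,0⟩⟩, ⟨⟨0,0,0⟩,⟨2,0,0⟩,⟨2,0,0⟩,⟨2,0,0⟩,⟨2,0,0⟩⟩, ⟨⟨2,0,0⟩,⟨2,0,0⟩,⟨2,0,0⟩,⟨2,0,0⟩,⟨2,0,0⟩⟩, ⟨2,0,0⟩,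
    ⟨⟨1,0,0⟩,⟨9,0,1⟩,⟨24673,0,4⟩,⟨9,0,1⟩,⟨8389,0,4⟩,⟨10818,0,4⟩,⟨15,0,1⟩,⟨2,0,0⟩,⟨937,0,4⟩,⟨1344,0,4⟩,⟨7157,0,4⟩,⟨1156,0,4⟩,⟨4326,0,4⟩,⟨3469,0,4⟩,⟨14,0,1⟩,⟨23,0,1⟩,⟨10,0,0⟩,⟨855,0,4⟩,⟨1346,0,4⟩,⟨7239,0,4⟩,⟨1926,0,4⟩,⟨4694,0,4⟩,⟨6168,0,4⟩⟩, ⟨⟨2,0,0⟩,⟨0,0,0⟩,⟨0,0,0⟩,⟨0,0,0⟩,⟨0,0,0⟩⟩⟩⟩

/-- interval 10 -/
def d10 : Seg (Kn Dec) :=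
  ⟨⟨2001,0,4⟩, ⟨25,0,3⟩, ⟨10, ⟨9028,0,4⟩, ⟨⟨5713,0,4⟩,⟨1487,0,4⟩,⟨85,0,2⟩,⟨5813,0,4⟩,⟨762,0,4⟩,⟨2037,0,4⟩⟩,
    ⟨⟨957,0,3⟩,⟨8416,0,4⟩,⟨1,0,0⟩,⟨1941,0,4⟩⟩, ⟨⟨875,0,3⟩,⟨8551,0,4⟩,⟨205,0,2⟩,⟨1941,0,4⟩⟩, ⟨⟨887,0,3⟩,⟨8333,0,4⟩,⟨18,0,1⟩,⟨1941,0,4⟩⟩,
    ⟨⟨8551,0,4⟩,⟨2928,0,4⟩,⟨3447,0,4⟩,⟨858,0,3⟩,⟨10818,0,4⟩,⟨⟨0,0,0⟩,⟨0,0,0⟩,⟨0,0,0⟩,⟨0,0,0⟩,⟨0,0,0⟩,⟨0,0,0⟩,⟨0,0,0⟩⟩,⟨⟨0,0,0⟩,⟨0,0,0⟩,⟨0,0,0⟩,⟨0,0,0⟩,⟨0,0,0⟩,⟨0,0,0⟩,⟨0,0,0⟩⟩⟩, ⟨⟨21,0,1⟩,⟨21,0,1⟩,⟨21,0,1⟩,⟨21,0,1⟩,⟨21,0,1⟩⟩, ⟨⟨0,0,0⟩,⟨21,0,1⟩,⟨21,0,1⟩,⟨21,0,1⟩,⟨21,0,1⟩⟩, ⟨⟨21,0,1⟩,⟨21,0,1⟩,⟨21,0,1⟩,⟨21,0,1⟩,⟨21,0,1⟩⟩, ⟨21,0,1⟩,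
    ⟨⟨1,0,0⟩,⟨9,0,1⟩,⟨24673,0,4⟩,⟨9,0,1⟩,⟨858,0,3⟩,⟨10818,0,4⟩,⟨145,0,2⟩,⟨20056,0,4⟩,⟨1,0,1⟩,⟨1268,0,4⟩,⟨8028,0,4⟩,⟨1338,0,4⟩,⟨4454,0,4⟩,⟨3845,0,4⟩,⟨14,0,1⟩,⟨23,0,1⟩,⟨10,0,0⟩,⟨955,0,4⟩,⟨1266,0,4⟩,⟨8073,0,4⟩,⟨2289,0,4⟩,⟨4932,0,4⟩,⟨6739,0,4⟩⟩, ⟨⟨21,0,1⟩,⟨0,0,0⟩,⟨0,0,0⟩,⟨0,0,0⟩,⟨0,0,0⟩⟩⟩⟩

/-- interval 11 -/
def d11 : Seg (Kn Dec) :=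
  ⟨⟨2251,0,4⟩, ⟨25,0,3⟩, ⟨11, ⟨10005,0,4⟩, ⟨⟨5527,0,4⟩,⟨1432,0,4⟩,⟨8,0,1⟩,⟨6252,0,4⟩,⟨723,0,4⟩,⟨2078,0,4⟩⟩,
    ⟨⟨935,0,3⟩,⟨8028,0,4⟩,⟨1,0,0⟩,⟨2308,0,4⟩⟩, ⟨⟨875,0,3⟩,⟨8825,0,4⟩,⟨2,0,0⟩,⟨2308,0,4⟩⟩, ⟨⟨875,0,3⟩,⟨8296,0,4⟩,⟨17,0,1⟩,⟨2308,0,4⟩⟩,
    ⟨⟨8825,0,4⟩,⟨2952,0,4⟩,⟨3096,0,4⟩,⟨8775,0,4⟩,⟨10818,0,4⟩,⟨⟨0,0,0⟩,⟨0,0,0⟩,⟨0,0,0⟩,⟨0,0,0⟩,⟨0,0,0⟩,⟨0,0,0⟩,⟨0,0,0⟩⟩,⟨⟨0,0,0⟩,⟨0,0,0⟩,⟨0,0,0⟩,⟨0,0,0⟩,⟨0,0,0⟩,⟨0,0,0⟩,⟨0,0,0⟩⟩⟩, ⟨⟨2201,0,3⟩,⟨2201,0,3⟩,⟨2201,0,3⟩,⟨2201,0,3⟩,⟨2201,0,3⟩⟩, ⟨⟨0,0,0⟩,⟨2201,0,3⟩,⟨2201,0,3⟩,⟨2201,0,3⟩,⟨2201,0,3⟩⟩, ⟨⟨2201,0,3⟩,⟨2201,0,3⟩,⟨2201,0,3⟩,⟨2201,0,3⟩,⟨2201,0,3⟩⟩, ⟨2201,0,3⟩,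
    ⟨⟨1,0,0⟩,⟨9,0,1⟩,⟨24673,0,4⟩,⟨9,0,1⟩,⟨8775,0,4⟩,⟨10818,0,4⟩,⟨14,0,1⟩,⟨2025,0,3⟩,⟨1054,0,4⟩,⟨119,0,3⟩,⟨8959,0,4⟩,⟨153,0,3⟩,⟨46,0,2⟩,⟨4237,0,4⟩,⟨14,0,1⟩,⟨23,0,1⟩,⟨10,0,0⟩,⟨1054,0,4⟩,⟨119,0,3⟩,⟨8951,0,4⟩,⟨2685,0,4⟩,⟨5206,0,4⟩,⟨732,0,3⟩⟩, ⟨⟨2201,0,3⟩,⟨0,0,0⟩,⟨0,0,0⟩,⟨0,0,0⟩,⟨0,0,0⟩⟩⟩⟩

/-- interval 12 -/
def d12 : Seg (Kn Dec) :=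
  ⟨⟨2501,0,4⟩, ⟨25,0,3⟩, ⟨12, ⟨11031,0,4⟩, ⟨⟨5355,0,4⟩,⟨164,0,3⟩,⟨9,0,1⟩,⟨6557,0,4⟩,⟨698,0,4⟩,⟨2126,0,4⟩⟩,
    ⟨⟨95,0,2⟩,⟨8638,0,4⟩,⟨1,0,0⟩,⟨2717,0,4⟩⟩, ⟨⟨875,0,3⟩,⟨9188,0,4⟩,⟨2,0,0⟩,⟨2717,0,4⟩⟩, ⟨⟨888,0,3⟩,⟨8999,0,4⟩,⟨18,0,1⟩,⟨2717,0,4⟩⟩,
    ⟨⟨9188,0,4⟩,⟨3087,0,4⟩,⟨5188,0,4⟩,⟨8974,0,4⟩,⟨10818,0,4⟩,⟨⟨0,0,0⟩,⟨0,0,0⟩,⟨0,0,0⟩,⟨0,0,0⟩,⟨0,0,0⟩,⟨0,0,0⟩,⟨0,0,0⟩⟩,⟨⟨0,0,0⟩,⟨0,0,0⟩,⟨0,0,0⟩,⟨0,0,0⟩,⟨0,0,0⟩,⟨0,0,0⟩,⟨0,0,0⟩⟩⟩, ⟨⟨2401,0,3⟩,⟨2401,0,3⟩,⟨2401,0,3⟩,⟨2401,0,3⟩,⟨2401,0,3⟩⟩, ⟨⟨0,0,0⟩,⟨2401,0,3⟩,⟨2401,0,3⟩,⟨2401,0,3⟩,⟨2401,0,3⟩⟩, ⟨⟨2401,0,3⟩,⟨2401,0,3⟩,⟨2401,0,3⟩,⟨2401,0,3⟩,⟨2401,0,3⟩⟩, ⟨2401,0,3⟩,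
    ⟨⟨1,0,0⟩,⟨9,0,1⟩,⟨24673,0,4⟩,⟨9,0,1⟩,⟨8974,0,4⟩,⟨10818,0,4⟩,⟨1375,0,3⟩,⟨20417,0,4⟩,⟨1295,0,4⟩,⟨1216,0,4⟩,⟨12179,0,4⟩,⟨1762,0,4⟩,⟨481,0,3⟩,⟨4634,0,4⟩,⟨14,0,1⟩,⟨23,0,1⟩,⟨10,0,0⟩,⟨1151,0,4⟩,⟨1126,0,4⟩,⟨988,0,3⟩,⟨3117,0,4⟩,⟨5298,0,4⟩,⟨7914,0,4⟩⟩, ⟨⟨2401,0,3⟩,⟨0,0,0⟩,⟨0,0,0⟩,⟨0,0,0⟩,⟨0,0,0⟩⟩⟩⟩

/-- interval 13 -/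
def d13 : Seg (Kn Dec) :=
  ⟨⟨2751,0,4⟩, ⟨3,0,2⟩, ⟨13, ⟨1234,0,3⟩, ⟨⟨5164,0,4⟩,⟨1825,0,4⟩,⟨985,0,3⟩,⟨6864,0,4⟩,⟨676,0,4⟩,⟨2191,0,4⟩⟩,
    ⟨⟨963,0,3⟩,⟨9318,0,4⟩,⟨1,0,0⟩,⟨3272,0,4⟩⟩, ⟨⟨871,0,3⟩,⟨9571,0,4⟩,⟨2,0,0⟩,⟨3272,0,4⟩⟩, ⟨⟨9,0,1⟩,⟨9864,0,4⟩,⟨19,0,1⟩,⟨3272,0,4⟩⟩,
    ⟨⟨9864,0,4⟩,⟨3256,0,4⟩,⟨7533,0,4⟩,⟨9218,0,4⟩,⟨10818,0,4⟩,⟨⟨0,0,0⟩,⟨0,0,0⟩,⟨0,0,0⟩,⟨0,0,0⟩,⟨0,0,0⟩,⟨0,0,0⟩,⟨0,0,0⟩⟩,⟨⟨0,0,0⟩,⟨0,0,0⟩,⟨0,0,0⟩,⟨0,0,0⟩,⟨0,0,0⟩,⟨0,0,0⟩,⟨0,0,0⟩⟩⟩, ⟨⟨263,0,2⟩,⟨263,0,2⟩,⟨263,0,2⟩,⟨263,0,2⟩,⟨263,0,2⟩⟩, ⟨⟨0,0,0⟩,⟨263,0,2⟩,⟨263,0,2⟩,⟨263,0,2⟩,⟨263,0,2⟩⟩, ⟨⟨263,0,2⟩,⟨263,0,2⟩,⟨263,0,2⟩,⟨263,0,2⟩,⟨263,0,2⟩⟩, ⟨263,0,2⟩,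
    ⟨⟨1,0,0⟩,⟨9,0,1⟩,⟨24673,0,4⟩,⟨9,0,1⟩,⟨9218,0,4⟩,⟨10818,0,4⟩,⟨1358,0,3⟩,⟨20564,0,4⟩,⟨1639,0,4⟩,⟨1298,0,4⟩,⟨15644,0,4⟩,⟨2085,0,4⟩,⟨4984,0,4⟩,⟨5127,0,4⟩,⟨14,0,1⟩,⟨23,0,1⟩,⟨10,0,0⟩,⟨1266,0,4⟩,⟨1064,0,4⟩,⟨11074,0,4⟩,⟨3683,0,4⟩,⟨5696,0,4⟩,⟨8657,0,4⟩⟩, ⟨⟨263,0,2⟩,⟨0,0,0⟩,⟨0,0,0⟩,⟨0,0,0⟩,⟨0,0,0⟩⟩⟩⟩

/-- interval 14 -/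
def d14 : Seg (Kn Dec) :=
  ⟨⟨3051,0,4⟩, ⟨28235,0,6⟩, ⟨14, ⟨13661,0,4⟩, ⟨⟨4999,0,4⟩,⟨1691,0,4⟩,⟨902,0,3⟩,⟨6934,0,4⟩,⟨673,0,4⟩,⟨2261,0,4⟩⟩,
    ⟨⟨95,0,2⟩,⟨9118,0,4⟩,⟨1,0,0⟩,⟨3867,0,4⟩⟩, ⟨⟨85,0,2⟩,⟨9665,0,4⟩,⟨2,0,0⟩,⟨3867,0,4⟩⟩, ⟨⟨9,0,1⟩,⟨10299,0,4⟩,⟨19,0,1⟩,⟨3867,0,4⟩⟩,
    ⟨⟨10299,0,4⟩,⟨3257,0,4⟩,⟨5999,0,4⟩,⟨945,0,3⟩,⟨10817,0,4⟩,⟨⟨0,0,0⟩,⟨0,0,0⟩,⟨0,0,0⟩,⟨0,0,0⟩,⟨0,0,0⟩,⟨0,0,0⟩,⟨0,0,0⟩⟩,⟨⟨0,0,0⟩,⟨0,0,0⟩,⟨0,0,0⟩,⟨0,0,0⟩,⟨0,0,0⟩,⟨0,0,0⟩,⟨0,0,0⟩⟩⟩, ⟨⟨2796,0,3⟩,⟨2796,0,3⟩,⟨2796,0,3⟩,⟨2796,0,3⟩,⟨2796,0,3⟩⟩, ⟨⟨0,0,0⟩,⟨2796,0,3⟩,⟨2796,0,3⟩,⟨2796,0,3⟩,⟨2796,0,3⟩⟩, ⟨⟨2796,0,3⟩,⟨2796,0,3⟩,⟨2796,0,3⟩,⟨2796,0,3⟩,⟨2796,0,3⟩⟩, ⟨2796,0,3⟩,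
    ⟨⟨999,0,3⟩,⟨9,0,1⟩,⟨24673,0,4⟩,⟨9,0,1⟩,⟨945,0,3⟩,⟨10817,0,4⟩,⟨1399,0,3⟩,⟨20256,0,4⟩,⟨1587,0,4⟩,⟨1122,0,4⟩,⟨15152,0,4⟩,⟨2518,0,4⟩,⟨525,0,3⟩,⟨5571,0,4⟩,⟨14,0,1⟩,⟨23,0,1⟩,⟨10,0,0⟩,⟨1372,0,4⟩,⟨1028,0,4⟩,⟨12289,0,4⟩,⟨4273,0,4⟩,⟨6296,0,4⟩,⟨9388,0,4⟩⟩, ⟨⟨2796,0,3⟩,⟨0,0,0⟩,⟨0,0,0⟩,⟨0,0,0⟩,⟨0,0,0⟩⟩⟩⟩

/-- the intervals of `D` -/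
def dl : List (Seg (Kn Dec)) := [d0, d1, d2, d3, d4, d5, d6, d7, d8, d9, d10, d11, d12, d13, d14]

/-- auxiliary numbers -/
def al : List Aux := [
  ⟨⟨12289,0,5⟩, ⟨4586,0,5⟩, [⟨16513,0,5⟩,⟨21731,0,5⟩,⟨24177,0,5⟩,⟨26547,0,5⟩,⟨1,0,0⟩], ⟨3157,0,5⟩, [⟨27368,0,5⟩,⟨36447,0,5⟩,⟨4042,0,4⟩,⟨1,0,0⟩], ⟨⟨18023,0,4⟩, [⟨25,0,2⟩,⟨4375,0,4⟩,⟨45508,0,5⟩,⟨47211,0,5⟩,⟨1,0,0⟩]⟩, ⟨⟨5325,0,3⟩, [⟨25,0,2⟩,⟨4375,0,4⟩,⟨45508,0,5⟩,⟨47211,0,5⟩,⟨1,0,0⟩]⟩, ⟨⟨23953,0,4⟩, [⟨25,0,2⟩,⟨4375,0,4⟩,⟨45508,0,5⟩,⟨47211,0,5⟩,⟨1,0,0⟩]⟩,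
   ⟨⟨3,0,1⟩, ⟨1,0,0⟩, ⟨pos 321 3, pos 12289 5, pos 891 4, [(pos 5 3, false), (pos 75 4, false), (pos 1 2, true), (pos 201 4, true), (pos 401 4, true), (pos 802 4, true), (pos 1605 4, true), (pos 321 3, true)], [pos 1 0], pos 321 3, [pos 3634 4, pos 4058 4, pos 4907 4, pos 6605 4, pos 1 0]⟩, ⟨1,0,0⟩, ⟨pos 321 3, pos 12289 5, pos 1879 4, [(pos 5 3, false), (pos 75 4, false), (pos 1 2, true), (pos 201 4, true), (pos 401 4, true), (pos 802 4, true), (pos 1605 4, true), (pos 321 3, true)], [pos 1 0], pos 321 3, [pos 3634 4, pos 4058 4, pos 4907 4, pos 6605 4, pos 1 0]⟩, ⟨1,0,0⟩, ⟨pos 321 3, pos 12289 5, pos 891 4, [(pos 5 3,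 false), (pos 75 4, false), (pos 1 2, true), (pos 201 4, true), (pos 401 4, true), (pos 802 4, true), (pos 1605 4, true), (pos 321 3, true)], [pos 1 0], pos 321 3, [pos 3634 4, pos 4058 4, pos 4907 4, pos 6605 4, pos 1 0]⟩, ⟨1,0,0⟩, ⟨pos 321 3, pos 12289 5, pos 1879 4, [(pos 5 3, false), (pos 75 4, false), (pos 1 2, true), (pos 201 4, true), (pos 401 4, true), (pos 802 4, true), (pos 1605 4, true), (pos 321 3, true)], [pos 1 0], pos 321 3, [pos 3634 4, pos 4058 4, pos 4907 4, pos 6605 4, pos 1 0]⟩⟩⟩,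
  ⟨⟨1735,0,4⟩, ⟨5531,0,5⟩, [⟨1734,0,4⟩,⟨27673,0,5⟩,⟨32194,0,5⟩,⟨1,0,0⟩], ⟨4489,0,5⟩, [⟨28367,0,5⟩,⟨37322,0,5⟩,⟨1,0,0⟩], ⟨⟨11399,0,4⟩, [⟨25,0,2⟩,⟨4375,0,4⟩,⟨45508,0,5⟩,⟨47211,0,5⟩,⟨1,0,0⟩]⟩, ⟨⟨28467,0,4⟩, [⟨25,0,2⟩,⟨4375,0,4⟩,⟨45508,0,5⟩,⟨47211,0,5⟩,⟨1,0,0⟩]⟩, ⟨⟨1421,0,3⟩, [⟨25,0,2⟩,⟨4375,0,4⟩,⟨45508,0,5⟩,⟨47211,0,5⟩,⟨1,0,0⟩]⟩,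
   ⟨⟨3,0,1⟩, ⟨1,0,0⟩, ⟨pos 33 2, pos 1735 4, pos 902 4, [(pos 103 4, false), (pos 129 4, false), (pos 142 4, false), (pos 149 4, false), (pos 155 4, true), (pos 207 4, true), (pos 413 4, true), (pos 825 4, true), (pos 165 3, true), (pos 33 2, true)], [pos 1 0], pos 33 2, [pos 3719 4, pos 4138 4, pos 4975 4, pos 665 3, pos 1 0]⟩, ⟨1,0,0⟩, ⟨pos 303 3, pos 1735 4, pos 191 3, [(pos 95 4, false), (pos 143 4, false), (pos 149 4, false), (pos 155 4, true), (pos 167 4, true), (pos 19 3, true), (pos 379 4, true), (pos 758 4, true), (pos 1515 4, true), (pos 303 3, true)], [pos 1 0], pos 303 3, [pos 3466 4, pos 3902 4, pos 4773 4,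 pos 6515 4, pos 1 0]⟩, ⟨1,0,0⟩, ⟨pos 33 2, pos 1735 4, pos 902 4, [(pos 103 4, false), (pos 129 4, false), (pos 142 4, false), (pos 149 4, false), (pos 155 4, true), (pos 207 4, true), (pos 413 4, true), (pos 825 4, true), (pos 165 3, true), (pos 33 2, true)], [pos 1 0], pos 33 2, [pos 3719 4, pos 4138 4, pos 4975 4, pos 665 3, pos 1 0]⟩, ⟨1,0,0⟩, ⟨pos 303 3, pos 1735 4, pos 191 3, [(pos 95 4, false), (pos 143 4, false), (pos 149 4, false), (pos 155 4, true), (pos 167 4, true), (pos 19 3, true), (pos 379 4, true), (pos 758 4, true), (pos 1515 4, true), (pos 303 3, true)], [pos 1 0], pos 303 3, [pos 3466 4, pos 3902 4,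 pos 4773 4, pos 6515 4, pos 1 0]⟩⟩⟩,
  ⟨⟨22384,0,5⟩, ⟨6267,0,5⟩, [⟨29701,0,5⟩,⟨34095,0,5⟩,⟨1,0,0⟩], ⟨585,0,4⟩, [⟨29388,0,5⟩,⟨33802,0,5⟩,⟨35871,0,5⟩,⟨3988,0,4⟩,⟨1,0,0⟩], ⟨⟨8715,0,4⟩, [⟨25,0,2⟩,⟨4375,0,4⟩,⟨45508,0,5⟩,⟨47211,0,5⟩,⟨1,0,0⟩]⟩, ⟨⟨1848,0,3⟩, [⟨25,0,2⟩,⟨4375,0,4⟩,⟨45508,0,5⟩,⟨47211,0,5⟩,⟨1,0,0⟩]⟩, ⟨⟨10261,0,4⟩, [⟨25,0,2⟩,⟨4375,0,4⟩,⟨45508,0,5⟩,⟨47211,0,5⟩,⟨1,0,0⟩]⟩,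
   ⟨⟨3,0,1⟩, ⟨1,0,0⟩, ⟨pos 33 2, pos 22384 5, pos 917 4, [(pos 207 4, false), (pos 233 4, false), (pos 246 4, false), (pos 259 4, true), (pos 31 3, true), (pos 413 4, true), (pos 825 4, true), (pos 165 3, true), (pos 33 2, true)], [pos 1 0], pos 33 2, [pos 3719 4, pos 4138 4, pos 4975 4, pos 665 3, pos 1 0]⟩, ⟨1,0,0⟩, ⟨pos 297 3, pos 22384 5, pos 1955 4, [(pos 186 4, false), (pos 233 4, false), (pos 245 4, false), (pos 256 4, true), (pos 279 4, true), (pos 372 4, true), (pos 743 4, true), (pos 1485 4, true), (pos 297 3, true)], [pos 1 0], pos 297 3, [pos 341 3, pos 3849 4, pos 4728 4, pos 6485 4, pos 1 0]⟩, ⟨1,0,0⟩, ⟨pos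 33 2, pos 22384 5, pos 917 4, [(pos 207 4, false), (pos 233 4, false), (pos 246 4, false), (pos 259 4, true), (pos 31 3, true), (pos 413 4, true), (pos 825 4, true), (pos 165 3, true), (pos 33 2, true)], [pos 1 0], pos 33 2, [pos 3719 4, pos 4138 4, pos 4975 4, pos 665 3, pos 1 0]⟩, ⟨1,0,0⟩, ⟨pos 297 3, pos 22384 5, pos 1954 4, [(pos 186 4, false), (pos 233 4, false), (pos 245 4, false), (pos 256 4, true), (pos 279 4, true), (pos 372 4, true), (pos 743 4, true), (pos 1485 4, true), (pos 297 3, true)], [pos 1 0], pos 297 3, [pos 341 3, pos 3849 4, pos 4728 4, pos 6485 4, pos 1 0]⟩⟩⟩,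
  ⟨⟨27405,0,5⟩, ⟨6642,0,5⟩, [⟨29982,0,5⟩,⟨32171,0,5⟩,⟨32701,0,5⟩,⟨1,0,0⟩], ⟨696,0,4⟩, [⟨3022,0,4⟩,⟨34582,0,5⟩,⟨38671,0,5⟩,⟨1,0,0⟩], ⟨⟨7347,0,4⟩, [⟨25,0,2⟩,⟨4375,0,4⟩,⟨47266,0,5⟩,⟨53858,0,5⟩,⟨1,0,0⟩]⟩, ⟨⟨13445,0,4⟩, [⟨25,0,2⟩,⟨4375,0,4⟩,⟨47266,0,5⟩,⟨53858,0,5⟩,⟨1,0,0⟩]⟩, ⟨⟨9984,0,4⟩, [⟨25,0,2⟩,⟨4375,0,4⟩,⟨47266,0,5⟩,⟨53858,0,5⟩,⟨1,0,0⟩]⟩,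
   ⟨⟨35,0,2⟩, ⟨1,0,0⟩, ⟨pos 33 2, pos 27405 5, pos 869 4, [(pos 207 4, false), (pos 31 3, false), (pos 362 4, false), (pos 413 4, true), (pos 825 4, true), (pos 165 3, true), (pos 33 2, true)], [pos 1 0], pos 33 2, [pos 3719 4, pos 4138 4, pos 4975 4, pos 665 3, pos 1 0]⟩, ⟨1,0,0⟩, ⟨pos 303 3, pos 27405 5, pos 2 1, [(pos 19 3, false), (pos 285 4, false), (pos 332 4, false), (pos 356 4, false), (pos 362 4, false), (pos 368 4, true), (pos 379 4, true), (pos 758 4, true), (pos 1515 4, true), (pos 303 3, true)], [pos 1 0], pos 303 3, [pos 3466 4, pos 3902 4, pos 4773 4, pos 6515 4, pos 1 0]⟩, ⟨1,0,0⟩, ⟨pos 33 2, pos 27405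 5, pos 869 4, [(pos 207 4, false), (pos 31 3, false), (pos 362 4, false), (pos 413 4, true), (pos 825 4, true), (pos 165 3, true), (pos 33 2, true)], [pos 1 0], pos 33 2, [pos 3719 4, pos 4138 4, pos 4975 4, pos 665 3, pos 1 0]⟩, ⟨1,0,0⟩, ⟨pos 303 3, pos 27405 5, pos 1999 4, [(pos 19 3, false), (pos 285 4, false), (pos 332 4, false), (pos 356 4, false), (pos 362 4, false), (pos 368 4, true), (pos 379 4, true), (pos 758 4, true), (pos 1515 4, true), (pos 303 3, true)], [pos 1 0], pos 303 3, [pos 3466 4, pos 3902 4, pos 4773 4, pos 6515 4, pos 1 0]⟩⟩⟩,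
  ⟨⟨31639,0,5⟩, ⟨6827,0,5⟩, [⟨30121,0,5⟩,⟨34489,0,5⟩,⟨1,0,0⟩], ⟨783,0,4⟩, [⟨30873,0,5⟩,⟨35194,0,5⟩,⟨39245,0,5⟩,⟨1,0,0⟩], ⟨⟨6642,0,4⟩, [⟨5,0,1⟩,⟨53125,0,5⟩,⟨1,0,0⟩]⟩, ⟨⟨109,0,2⟩, [⟨5,0,1⟩,⟨53125,0,5⟩,⟨1,0,0⟩]⟩, ⟨⟨9719,0,4⟩, [⟨5,0,1⟩,⟨53125,0,5⟩,⟨1,0,0⟩]⟩,
   ⟨⟨4,0,1⟩, ⟨1,0,0⟩, ⟨pos 33 2, pos 31639 5, pos 829 4, [(pos 413 4, false), (pos 465 4, false), (pos 478 4, false), (pos 491 4, true), (pos 516 4, true), (pos 619 4, true), (pos 825 4, true), (pos 165 3, true), (pos 33 2, true)], [pos 1 0], pos 33 2, [pos 4138 4, pos 4975 4, pos 665 3, pos 1 0]⟩, ⟨999,0,3⟩, ⟨pos 297 3, pos 31639 5, pos 2054 4, [(pos 372 4, false), (pos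 465 4, false), (pos 477 4, false), (pos 488 4, true), (pos 511 4, true), (pos 558 4, true), (pos 743 4, true), (pos 1485 4, true), (pos 297 3, true)], [pos 1 0], pos 297 3, [pos 3849 4, pos 4728 4, pos 6485 4, pos 1 0]⟩, ⟨1,0,0⟩, ⟨pos 33 2, pos 31639 5, pos 829 4, [(pos 413 4, false), (pos 465 4, false), (pos 478 4, false), (pos 491 4, true), (pos 516 4, true), (pos 619 4, true), (pos 825 4, true), (pos 165 3, true), (pos 33 2, true)], [pos 1 0], pos 33 2, [pos 4138 4, pos 4975 4, pos 665 3, pos 1 0]⟩, ⟨1,0,0⟩, ⟨pos 297 3, pos 31639 5, pos 2054 4, [(pos 372 4, false), (pos 465 4, false), (pos 477 4, false), (pos 488 4,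 true), (pos 511 4, true), (pos 558 4, true), (pos 743 4, true), (pos 1485 4, true), (pos 297 3, true)], [pos 1 0], pos 297 3, [pos 3849 4, pos 4728 4, pos 6485 4, pos 1 0]⟩⟩⟩,
  ⟨⟨33927,0,5⟩, ⟨6873,0,5⟩, [⟨30155,0,5⟩,⟨34521,0,5⟩,⟨38614,0,5⟩,⟨1,0,0⟩], ⟨8301,0,5⟩, [⟨31226,0,5⟩,⟨35525,0,5⟩,⟨36533,0,5⟩,⟨37525,0,5⟩,⟨1,0,0⟩], ⟨⟨6359,0,4⟩, [⟨5,0,1⟩,⟨53125,0,5⟩,⟨5459,0,4⟩,⟨1,0,0⟩]⟩, ⟨⟨9696,0,4⟩, [⟨5,0,1⟩,⟨53125,0,5⟩,⟨5459,0,4⟩,⟨1,0,0⟩]⟩, ⟨⟨828,0,3⟩, [⟨5,0,1⟩,⟨53125,0,5⟩,⟨5459,0,4⟩,⟨1,0,0⟩]⟩,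
   ⟨⟨4,0,1⟩, ⟨1076,0,3⟩, ⟨pos 321 3, pos 33927 5, pos 817 4, [(pos 401 4, false), (pos 502 4, false), (pos 552 4, false), (pos 577 4, false), (pos 584 4, false), (pos 59 3, true), (pos 602 4, true), (pos 802 4, true), (pos 1605 4, true), (pos 321 3, true)], [pos 1 0], pos 321 3, [pos 3634 4, pos 4058 4, pos 4907 4, pos 6605 4, pos 1 0]⟩, ⟨849,0,3⟩, ⟨pos 309 3, pos 33927 5, pos 2066 4, [(pos 387 4, false), (pos 436 4, false), (pos 46 3, false), (pos 466 4, false), (pos 472 4, true), (pos 484 4, true), (pos 58 3, true), (pos 773 4, true), (pos 1545 4, true), (pos 309 3, true)], [pos 1 0], pos 309 3, [pos 4818 4, pos 6545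 4, pos 1 0]⟩, ⟨1,0,0⟩, ⟨pos 327 3, pos 33927 5, pos 812 4, [(pos 409 4, false), (pos 512 4, false), (pos 538 4, false), (pos 545 4, false), (pos 551 4, true), (pos 563 4, true), (pos 614 4, true), (pos 818 4, true), (pos 1635 4, true), (pos 327 3, true)], [pos 1 0], pos 327 3, [pos 4112 4, pos 4953 4, pos 6635 4, pos 1 0]⟩, ⟨1,0,0⟩, ⟨pos 306 3, pos 33927 5, pos 2095 4, [(pos 383 4, false), (pos 479 4, false), (pos 527 4, false), (pos 539 4, false), (pos 545 4, false), (pos 551 4, true), (pos 574 4, true), (pos 765 4, true), (pos 153 3, true), (pos 306 3, true)], [pos 1 0], pos 306 3, [pos 1 0]⟩⟩⟩,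
  ⟨⟨3607,0,4⟩, ⟨6896,0,5⟩, [⟨30172,0,5⟩,⟨34537,0,5⟩,⟨36583,0,5⟩,⟨1,0,0⟩], ⟨8743,0,5⟩, [⟨31558,0,5⟩,⟨35836,0,5⟩,⟨37842,0,5⟩,⟨1,0,0⟩], ⟨⟨6135,0,4⟩, [⟨5,0,1⟩,⟨5625,0,4⟩,⟨1,0,0⟩]⟩, ⟨⟨8768,0,4⟩, [⟨5,0,1⟩,⟨5625,0,4⟩,⟨1,0,0⟩]⟩, ⟨⟨7192,0,4⟩, [⟨5,0,1⟩,⟨5625,0,4⟩,⟨1,0,0⟩]⟩,
   ⟨⟨4,0,1⟩, ⟨115,0,2⟩, ⟨pos 297 3, pos 3607 4, pos 811 4, [(pos 372 4, false), (pos 558 4, false), (pos 651 4, false), (pos 697 4, false), (pos 743 4, true), (pos 1485 4, true), (pos 297 3, true)], [pos 1 0], pos 297 3, [pos 3849 4, pos 4728 4, pos 6485 4, pos 1 0]⟩, ⟨699,0,3⟩, ⟨pos 285 3, pos 3607 4, pos 2072 4, [(pos 357 4, false), (pos 402 4, false), (pos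 424 4, false), (pos 435 4, false), (pos 446 4, true), (pos 535 4, true), (pos 713 4, true), (pos 1425 4, true), (pos 285 3, true)], [pos 1 0], pos 285 3, [pos 3297 4, pos 3744 4, pos 4638 4, pos 6425 4, pos 1 0]⟩, ⟨1,0,0⟩, ⟨pos 303 3, pos 3607 4, pos 799 4, [(pos 379 4, false), (pos 569 4, false), (pos 593 4, false), (pos 605 4, false), (pos 611 4, false), (pos 617 4, true), (pos 664 4, true), (pos 758 4, true), (pos 1515 4, true), (pos 303 3, true)], [pos 1 0], pos 303 3, [pos 3902 4, pos 4773 4, pos 6515 4, pos 1 0]⟩, ⟨1,0,0⟩, ⟨pos 303 3, pos 3607 4, pos 214 3, [(pos 379 4, false), (pos 569 4, false), (pos 593 4, false),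 (pos 605 4, false), (pos 611 4, false), (pos 617 4, true), (pos 664 4, true), (pos 758 4, true), (pos 1515 4, true), (pos 303 3, true)], [pos 1 0], pos 303 3, [pos 1 0]⟩⟩⟩,
  ⟨⟨38743,0,5⟩, ⟨6896,0,5⟩, [⟨30172,0,5⟩,⟨34537,0,5⟩,⟨38629,0,5⟩,⟨1,0,0⟩], ⟨9269,0,5⟩, [⟨31952,0,5⟩,⟨36205,0,5⟩,⟨40193,0,5⟩,⟨1,0,0⟩], ⟨⟨5898,0,4⟩, [⟨5,0,1⟩,⟨5625,0,4⟩,⟨58985,0,5⟩,⟨1,0,0⟩]⟩, ⟨⟨7816,0,4⟩, [⟨5,0,1⟩,⟨5625,0,4⟩,⟨58985,0,5⟩,⟨1,0,0⟩]⟩, ⟨⟨6107,0,4⟩, [⟨5,0,1⟩,⟨5625,0,4⟩,⟨58985,0,5⟩,⟨1,0,0⟩]⟩,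
   ⟨⟨4,0,1⟩, ⟨1249,0,3⟩, ⟨pos 333 3, pos 38743 5, pos 802 4, [(pos 833 4, false), (pos 859 4, false), (pos 885 4, true), (pos 937 4, true), (pos 1041 4, true), (pos 1249 4, true), (pos 1665 4, true), (pos 333 3, true)], [pos 1 0], pos 333 3, [pos 1 0]⟩, ⟨5,0,1⟩, ⟨pos 33 2, pos 38743 5, pos 2066 4, [(pos 207 4, false), (pos 31 3, false), (pos 362 4, false), (pos 413 4, true), (pos 825 4, true), (pos 165 3, true), (pos 33 2, true)], [pos 1 0], pos 33 2, [pos 1 0]⟩, ⟨1,0,0⟩, ⟨pos 303 3, pos 38743 5, pos 781 4, [(pos 379 4, false), (pos 569 4, false), (pos 664 4, false), (pos 687 4, false), (pos 699 4, false), (pos 711 4,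 true), (pos 758 4, true), (pos 1515 4, true), (pos 303 3, true)], [pos 1 0], pos 303 3, [pos 3902 4, pos 4773 4, pos 6515 4, pos 1 0]⟩, ⟨1,0,0⟩, ⟨pos 303 3, pos 38743 5, pos 2204 4, [(pos 379 4, false), (pos 569 4, false), (pos 664 4, false), (pos 687 4, false), (pos 699 4, false), (pos 711 4, true), (pos 758 4, true), (pos 1515 4, true), (pos 303 3, true)], [pos 1 0], pos 303 3, [pos 1 0]⟩⟩⟩,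
  ⟨⟨41845,0,5⟩, ⟨7071,0,5⟩, [⟨30304,0,5⟩,⟨3466,0,4⟩,⟨38744,0,5⟩,⟨1,0,0⟩], ⟨9602,0,5⟩, [⟨32202,0,5⟩,⟨3644,0,4⟩,⟨38427,0,5⟩,⟨1,0,0⟩], ⟨⟨5669,0,4⟩, [⟨5,0,1⟩,⟨625,0,3⟩,⟨67188,0,5⟩,⟨1,0,0⟩]⟩, ⟨⟨6959,0,4⟩, [⟨5,0,1⟩,⟨625,0,3⟩,⟨67188,0,5⟩,⟨1,0,0⟩]⟩, ⟨⟨6241,0,4⟩, [⟨5,0,1⟩,⟨625,0,3⟩,⟨67188,0,5⟩,⟨1,0,0⟩]⟩,
   ⟨⟨45,0,2⟩, ⟨1124,0,3⟩, ⟨pos 327 3, pos 41845 5, pos 735 4, [(pos 818 4, false), (pos 87 3, false), (pos 896 4, false), (pos 921 4, true), (pos 1023 4, true), (pos 1227 4, true), (pos 1635 4, true), (pos 327 3, true)], [pos 1 0], pos 327 3, [pos 1 0]⟩, ⟨5,0,1⟩, ⟨pos 294 3, pos 41845 5, pos 211 3, [(pos 368 4, false), (pos 414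 4, false), (pos 42 3, false), (pos 426 4, true), (pos 437 4, true), (pos 46 3, true), (pos 552 4, true), (pos 735 4, true), (pos 147 3, true), (pos 294 3, true)], [pos 1 0], pos 294 3, [pos 3381 4, pos 3822 4, pos 4705 4, pos 647 3, pos 1 0]⟩, ⟨1,0,0⟩, ⟨pos 333 3, pos 41845 5, pos 722 4, [(pos 417 4, false), (pos 625 4, false), (pos 729 4, false), (pos 781 4, false), (pos 807 4, false), (pos 833 4, true), (pos 1665 4, true), (pos 333 3, true)], [pos 1 0], pos 333 3, [pos 1 0]⟩, ⟨1,0,0⟩, ⟨pos 303 3, pos 41845 5, pos 2283 4, [(pos 758 4, false), (pos 806 4, false), (pos 853 4, true), (pos 948 4, true), (pos 1137 4, true),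 (pos 1515 4, true), (pos 303 3, true)], [pos 1 0], pos 303 3, [pos 1 0]⟩⟩⟩,
  ⟨⟨44733,0,5⟩, ⟨7219,0,5⟩, [⟨30415,0,5⟩,⟨34765,0,5⟩,⟨36804,0,5⟩,⟨40754,0,5⟩,⟨1,0,0⟩], ⟨9898,0,5⟩, [⟨32424,0,5⟩,⟨36648,0,5⟩,⟨40608,0,5⟩,⟨1,0,0⟩], ⟨⟨5487,0,4⟩, [⟨5,0,1⟩,⟨625,0,3⟩,⟨67188,0,5⟩,⟨7129,0,4⟩,⟨1,0,0⟩]⟩, ⟨⟨6333,0,4⟩, [⟨5,0,1⟩,⟨625,0,3⟩,⟨67188,0,5⟩,⟨7129,0,4⟩,⟨1,0,0⟩]⟩, ⟨⟨6218,0,4⟩, [⟨5,0,1⟩,⟨625,0,3⟩,⟨67188,0,5⟩,⟨7129,0,4⟩,⟨1,0,0⟩]⟩,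
   ⟨⟨5,0,1⟩, ⟨1,0,0⟩, ⟨pos 33 2, pos 44733 5, pos 672 4, [(pos 825 4, false), (pos 877 4, false), (pos 903 4, false), (pos 91 3, false), (pos 916 4, true), (pos 929 4, true), (pos 1032 4, true), (pos 1238 4, true), (pos 165 3, true), (pos 33 2, true)], [pos 1 0], pos 33 2, [pos 1 0]⟩, ⟨5,0,1⟩, ⟨pos 321 3, pos 44733 5, pos 2163 4, [(pos 401 4, false), (pos 452 4, false), (pos 477 4, false), (pos 502 4, true), (pos 602 4, true), (pos 802 4, true), (pos 1605 4, true), (pos 321 3, true)], [pos 1 0], pos 321 3, [pos 1 0]⟩, ⟨1,0,0⟩, ⟨pos 333 3, pos 44733 5, pos 673 4, [(pos 833 4, false), (pos 885 4, false), (pos 911 4, false),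 (pos 937 4, true), (pos 1041 4, true), (pos 1249 4, true), (pos 1665 4, true), (pos 333 3, true)], [pos 1 0], pos 333 3, [pos 1 0]⟩, ⟨1,0,0⟩, ⟨pos 321 3, pos 44733 5, pos 2347 4, [(pos 802 4, false), (pos 903 4, false), (pos 91 3, false), (pos 916 4, true), (pos 928 4, true), (pos 953 4, true), (pos 1003 4, true), (pos 1204 4, true), (pos 1605 4, true), (pos 321 3, true)], [pos 1 0], pos 321 3, [pos 1 0]⟩⟩⟩,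
  ⟨⟨47445,0,5⟩, ⟨723,0,4⟩, [⟨30423,0,5⟩,⟨34772,0,5⟩,⟨36811,0,5⟩,⟨37799,0,5⟩,⟨39743,0,5⟩,⟨1,0,0⟩], ⟨10158,0,5⟩, [⟨32619,0,5⟩,⟨36831,0,5⟩,⟨4078,0,4⟩,⟨1,0,0⟩], ⟨⟨616,0,3⟩, [⟨5,0,1⟩,⟨625,0,3⟩,⟨71875,0,5⟩,⟨72754,0,5⟩,⟨1,0,0⟩]⟩, ⟨⟨6021,0,4⟩, [⟨5,0,1⟩,⟨625,0,3⟩,⟨71875,0,5⟩,⟨72754,0,5⟩,⟨1,0,0⟩]⟩, ⟨⟨6251,0,4⟩, [⟨5,0,1⟩,⟨625,0,3⟩,⟨71875,0,5⟩,⟨72754,0,5⟩,⟨1,0,0⟩]⟩,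
   ⟨⟨45,0,2⟩, ⟨1,0,0⟩, ⟨pos 312 3, pos 47445 5, pos 634 4, [(pos 78 3, false), (pos 975 4, false), (pos 1 1, false), (pos 1012 4, false), (pos 1024 4, true), (pos 1073 4, true), (pos 117 3, true), (pos 156 3, true), (pos 312 3, true)], [pos 1 0], pos 312 3, [pos 1 0]⟩, ⟨5,0,1⟩, ⟨pos 324 3, pos 47445 5, pos 2227 4, [(pos 405 4, false), (pos 507 4, false), (pos 533 4, false), (pos 558 4, true), (pos 608 4, true), (pos 81 3, true), (pos 162 3, true), (pos 324 3, true)], [pos 1 0], pos 324 3, [pos 1 0]⟩, ⟨1,0,0⟩, ⟨pos 324 3, pos 47445 5, pos 633 4, [(pos 81 3, false), (pos 1013 4, false), (pos 1215 4, true), (pos 162 3, true),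 (pos 324 3, true)], [pos 1 0], pos 324 3, [pos 1 0]⟩, ⟨1,0,0⟩, ⟨pos 312 3, pos 47445 5, pos 2466 4, [(pos 78 3, false), (pos 975 4, false), (pos 1 1, false), (pos 1012 4, false), (pos 1024 4, true), (pos 1073 4, true), (pos 117 3, true), (pos 156 3, true), (pos 312 3, true)], [pos 1 0], pos 312 3, [pos 1 0]⟩⟩⟩,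
  ⟨⟨5001,0,4⟩, ⟨7231,0,5⟩, [⟨30424,0,5⟩,⟨34773,0,5⟩,⟨3885,0,4⟩,⟨1,0,0⟩], ⟨10389,0,5⟩, [⟨32792,0,5⟩,⟨36993,0,5⟩,⟨38962,0,5⟩,⟨4087,0,4⟩,⟨1,0,0⟩], ⟨⟨6629,0,4⟩, [⟨5,0,1⟩,⟨75,0,2⟩,⟨78125,0,5⟩,⟨1,0,0⟩]⟩, ⟨⟨5768,0,4⟩, [⟨5,0,1⟩,⟨75,0,2⟩,⟨78125,0,5⟩,⟨1,0,0⟩]⟩, ⟨⟨6293,0,4⟩, [⟨5,0,1⟩,⟨75,0,2⟩,⟨78125,0,5⟩,⟨1,0,0⟩]⟩,
   ⟨⟨4,0,1⟩, ⟨1001,0,3⟩, ⟨pos 333 3, pos 50011 5, pos 595 4, [(pos 833 4, false), (pos 1041 4, false), (pos 1093 4, false), (pos 1106 4, false), (pos 1113 4, false), (pos 1119 4, true), (pos 1145 4, true), (pos 1249 4, true), (pos 1665 4, true), (pos 333 3, true)], [pos 1 0], pos 333 3, [pos 1 0]⟩, ⟨5,0,1⟩, ⟨pos 327 3,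 pos 50011 5, pos 23 2, [(pos 409 4, false), (pos 512 4, false), (pos 563 4, false), (pos 589 4, false), (pos 614 4, true), (pos 818 4, true), (pos 1635 4, true), (pos 327 3, true)], [pos 1 0], pos 327 3, [pos 1 0]⟩, ⟨1,0,0⟩, ⟨pos 333 3, pos 50011 5, pos 595 4, [(pos 833 4, false), (pos 1041 4, false), (pos 1093 4, false), (pos 1106 4, false), (pos 1113 4, false), (pos 1119 4, true), (pos 1145 4, true), (pos 1249 4, true), (pos 1665 4, true), (pos 333 3, true)], [pos 1 0], pos 333 3, [pos 1 0]⟩, ⟨1,0,0⟩, ⟨pos 306 3, pos 50011 5, pos 2603 4, [(pos 765 4, false), (pos 956 4, false), (pos 1052 4, false), (pos 11 2, false),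 (pos 1112 4, false), (pos 1124 4, true), (pos 1148 4, true), (pos 153 3, true), (pos 306 3, true)], [pos 1 0], pos 306 3, [pos 1 0]⟩⟩⟩,
  ⟨⟨5245,0,4⟩, ⟨7322,0,5⟩, [⟨30492,0,5⟩,⟨34837,0,5⟩,⟨36874,0,5⟩,⟨37861,0,5⟩,⟨38832,0,5⟩,⟨1,0,0⟩], ⟨10604,0,5⟩, [⟨32953,0,5⟩,⟨37144,0,5⟩,⟨41073,0,5⟩,⟨1,0,0⟩], ⟨⟨5936,0,4⟩, [⟨5,0,1⟩,⟨75,0,2⟩,⟨8125,0,4⟩,⟨83594,0,5⟩,⟨1,0,0⟩]⟩, ⟨⟨5485,0,4⟩, [⟨5,0,1⟩,⟨75,0,2⟩,⟨8125,0,4⟩,⟨83594,0,5⟩,⟨1,0,0⟩]⟩, ⟨⟨5626,0,4⟩, [⟨5,0,1⟩,⟨75,0,2⟩,⟨8125,0,4⟩,⟨83594,0,5⟩,⟨1,0,0⟩]⟩,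
   ⟨⟨375,0,3⟩, ⟨1251,0,3⟩, ⟨pos 324 3, pos 5245 4, pos 608 4, [(pos 81 3, false), (pos 1215 4, false), (pos 1418 4, false), (pos 1469 4, false), (pos 1519 4, true), (pos 162 3, true), (pos 324 3, true)], [pos 1 0], pos 324 3, [pos 1 0]⟩, ⟨5,0,1⟩, ⟨pos 294 3, pos 5245 4, pos 2405 4, [(pos 368 4, false), (pos 552 4, false), (pos 644 4, false), (pos 735 4, true), (pos 147 3, true), (pos 294 3, true)], [pos 1 0], pos 294 3, [pos 1 0]⟩, ⟨1,0,0⟩, ⟨pos 333 3, pos 5245 4, pos 563 4, [(pos 833 4, false), (pos 1041 4, false), (pos 1145 4, false), (pos 1197 4, false), (pos 121 3, false), (pos 1223 4, true), (pos 1249 4, true), (pos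 1665 4, true), (pos 333 3, true)], [pos 1 0], pos 333 3, [pos 1 0]⟩, ⟨1,0,0⟩, ⟨pos 333 3, pos 5245 4, pos 2649 4, [(pos 833 4, false), (pos 1041 4, false), (pos 1145 4, false), (pos 1197 4, false), (pos 121 3, false), (pos 1223 4, true), (pos 1249 4, true), (pos 1665 4, true), (pos 333 3, true)], [pos 1 0], pos 333 3, [pos 1 0]⟩⟩⟩,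
  ⟨⟨55236,0,5⟩, ⟨7467,0,5⟩, [⟨30601,0,5⟩,⟨39276,0,5⟩,⟨1,0,0⟩], ⟨10834,0,5⟩, [⟨33126,0,5⟩,⟨37306,0,5⟩,⟨39266,0,5⟩,⟨41164,0,5⟩,⟨1,0,0⟩], ⟨⟨5395,0,4⟩, [⟨5,0,1⟩,⟨75,0,2⟩,⟨875,0,3⟩,⟨1,0,0⟩]⟩, ⟨⟨5235,0,4⟩, [⟨5,0,1⟩,⟨75,0,2⟩,⟨875,0,3⟩,⟨1,0,0⟩]⟩, ⟨⟨507,0,3⟩, [⟨5,0,1⟩,⟨75,0,2⟩,⟨875,0,3⟩,⟨1,0,0⟩]⟩,
   ⟨⟨358,0,3⟩, ⟨1462,0,3⟩, ⟨pos 306 3, pos 55236 5, pos 649 4, [(pos 153 3, false), (pos 1722 4, false), (pos 1818 4, false), (pos 1824 4, false), (pos 183 3, true), (pos 1842 4, true), (pos 1866 4, true), (pos 1913 4, true), (pos 2295 4, true), (pos 306 3, true)], [pos 1 0], pos 306 3, [pos 1 0]⟩, ⟨5,0,1⟩, ⟨pos 33 2, pos 55236 5, pos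 2492 4, [(pos 413 4, false), (pos 619 4, false), (pos 67 3, false), (pos 696 4, false), (pos 709 4, false), (pos 722 4, true), (pos 825 4, true), (pos 165 3, true), (pos 33 2, true)], [pos 1 0], pos 33 2, [pos 1 0]⟩, ⟨1,0,0⟩, ⟨pos 324 3, pos 55236 5, pos 532 4, [(pos 81 3, false), (pos 1215 4, false), (pos 1317 4, false), (pos 1324 4, false), (pos 133 3, true), (pos 1343 4, true), (pos 1368 4, true), (pos 1418 4, true), (pos 162 3, true), (pos 324 3, true)], [pos 1 0], pos 324 3, [pos 1 0]⟩, ⟨1,0,0⟩, ⟨pos 324 3, pos 55236 5, pos 2848 4, [(pos 81 3, false), (pos 1215 4, false), (pos 1317 4, false), (pos 1324 4, false),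 (pos 133 3, true), (pos 1343 4, true), (pos 1368 4, true), (pos 1418 4, true), (pos 162 3, true), (pos 324 3, true)], [pos 1 0], pos 324 3, [pos 1 0]⟩⟩⟩,
  ⟨⟨57736,0,5⟩, ⟨7771,0,5⟩, [⟨30829,0,5⟩,⟨39476,0,5⟩,⟨1,0,0⟩], ⟨11034,0,5⟩, [⟨33276,0,5⟩,⟨37447,0,5⟩,⟨41357,0,5⟩,⟨1,0,0⟩], ⟨⟨5536,0,4⟩, [⟨5,0,1⟩,⟨75,0,2⟩,⟨875,0,3⟩,⟨90625,0,5⟩,⟨92969,0,5⟩,⟨1,0,0⟩]⟩, ⟨⟨518,0,3⟩, [⟨5,0,1⟩,⟨75,0,2⟩,⟨875,0,3⟩,⟨90625,0,5⟩,⟨92969,0,5⟩,⟨1,0,0⟩]⟩, ⟨⟨4859,0,4⟩, [⟨5,0,1⟩,⟨75,0,2⟩,⟨875,0,3⟩,⟨90625,0,5⟩,⟨92969,0,5⟩,⟨1,0,0⟩]⟩,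
   ⟨⟨399,0,3⟩, ⟨1255,0,3⟩, ⟨pos 321 3, pos 57736 5, pos 561 4, [(pos 1605 4, false), (pos 1705 4, false), (pos 173 3, false), (pos 1755 4, true), (pos 1806 4, true), (pos 2007 4, true), (pos 2408 4, true), (pos 321 3, true)], [pos 1 0], pos 321 3, [pos 1 0]⟩, ⟨5,0,1⟩, ⟨pos 315 3, pos 57736 5, pos 2625 4, [(pos 394 4, false), (pos 591 4, false), (pos 69 3, false), (pos 739 4, false), (pos 764 4, false), (pos 77 3, false), (pos 776 4, true), (pos 788 4, true), (pos 1575 4, true), (pos 315 3, true)], [pos 1 0], pos 315 3, [pos 1 0]⟩, ⟨1,0,0⟩, ⟨pos 306 3, pos 57736 5, pos 514 4, [(pos 765 4, false), (pos 1148 4, false), (pos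 1339 4, false), (pos 1387 4, false), (pos 1411 4, false), (pos 1423 4, false), (pos 1429 4, false), (pos 1435 4, true), (pos 153 3, true), (pos 306 3, true)], [pos 1 0], pos 306 3, [pos 1 0]⟩, ⟨1,0,0⟩, ⟨pos 306 3, pos 57736 5, pos 3148 4, [(pos 765 4, false), (pos 1148 4, false), (pos 1339 4, false), (pos 1387 4, false), (pos 1411 4, false), (pos 1423 4, false), (pos 1429 4, false), (pos 1435 4, true), (pos 153 3, true), (pos 306 3, true)], [pos 1 0], pos 306 3, [pos 1 0]⟩⟩⟩]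

theorem kAll_ok : kAll al dl = true := by decide +kernel

theorem dl_forall {P : Seg (Kn Dec) → Prop} (h0 : P d0) (h1 : P d1) (h2 : P d2) (h3 : P d3) (h4 : P d4) (h5 : P d5) (h6 : P d6) (h7 : P d7) (h8 : P d8) (h9 : P d9) (h10 : P d10) (h11 : P d11) (h12 : P d12) (h13 : P d13) (h14 : P d14) :
    ∀ dc ∈ dl, P dc := by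
  intro dc hd
  simp only [dl, List.mem_cons, List.not_mem_nil, or_false] at hd
  rcases hd with rfl | rfl | rfl | rfl | rfl | rfl | rfl | rfl | rfl | rfl | rfl | rfl | rfl | rfl | rfl
  · exact h0
  · exact h1
  · exact h2
  · exact h3
  · exact h4
  · exact h5
  · exact h6
  · exact h7
  · exact h8
  · exact h9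
  · exact h10
  · exact h11
  · exact h12
  · exact h13
  · exact h14

end Pool.Agent.TSK
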