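import Pool.Agent.TSK.All

set_option autoImplicit false

/-!
# Trees of maximum degree at most three, and more (MP_d27362_co)

Every finite tree in which every vertex has at most three neighbours, or at most two neighbours
which are not leaves, has an orientation with at most `2 ^ (-e(T)) * m ^ n` homomorphisms to every
tournament on `m` vertices.
-/

namespace Pool.Agent.TSK.MaxDegreeThree

open Pool.Agent

/-- **Every finite tree in which every vertex has at most three neighbours, or at most two
neighbours which are not leaves**, has an orientation such that, in every finite tournament on `m`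
vertices, the number of homomorphisms of the oriented tree divided by `m ^ n` is at most
`2 ^ (- number of edges)`. -/
theorem result :
    ∀ n : ℕ, ∀ T : SimpleGraph (Fin n), T.IsTree →
      (∀ v, (T.neighborSet v).ncard ≤ 3 ∨
        {w ∈ T.neighborSet v | 2 ≤ (T.neighborSet w).ncard}.ncard ≤ 2) →
      ∃ D : Fin n → Fin n → Prop,
        (∀ u v, T.Adj u v → (D u v ∨ D v u)) ∧
        (∀ u v, D u v → (T.Adj u v ∧ ¬ D v u)) ∧
        ∀ m : ℕ, ∀ G : Fin m → Fin m → Prop,
          (∀ a, ¬ G a a) →
          (∀ a b, a ≠ b → (G a b ↔ ¬ G b a)) →
          (({f : Fin n → Fin m | ∀ u v, D u v → G (f u) (f v)}.ncard : ℝ) / (m : ℝ) ^ n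
            ≤ ((1 : ℝ) / 2) ^ (T.edgeSet.ncard)) :=
  TSK.three_plus

end Pool.Agent.TSK.MaxDegreeThree
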